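import Pool.Agent.H75C.RD.Hard
import Pool.Agent.H75C.NX.Classes

/-!
# Computations in time `2 ^ O(n ^ c)` with few rounds of parallel queries
-/

namespace Pool.Agent.H75C.RD

open Pool.Agent.NPC Pool.Agent.H660R2.NX Pool.Agent.H75C.NX

attribute [local irreducible] unpair

open Classical in
/-- The lists of the answers in the first `i` rounds: `Q` maps the list of the lists of answers
received so far to the list of the queries of the next round, and these are answered by the oracle
`A`. -/
noncomputable def answers (Q : List (List Bool) → List (List Bool)) (A : Set (List Bool)) :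
    ℕ → List (List Bool)
  | 0 => []
  | i + 1 => answers Q A i ++ [(Q (answers Q A i)).map (fun q => decide (q ∈ A))]

/-- What an algorithm gets: the input `x`, the advice `a`, (the code of) the list `H` of the lists of
answers received so far, and `2 ^ m` symbols of padding. -/
def data (x a : List Bool) (m : ℕ) (H : List (List Bool)) : List Bool :=
  pairBits (pairBits (pairBits x a) (bits H)) (List.replicate (2 ^ m) false)

/-- With the oracle `A`, the algorithm given by `Q` (the queries of the next round) and `D` (the final
decision), both as functions of the answers received so far, asks in each of `r` rounds a list of at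
most `w` queries of length at most `s`, and then accepts if and only if the statement `P` holds. -/
def DecidesRounds (Q : List (List Bool) → List (List Bool)) (D : List (List Bool) → Prop)
    (A : Set (List Bool)) (r w s : ℕ) (P : Prop) : Prop :=
  (∀ i < r, (Q (answers Q A i)).length ≤ w ∧ ∀ q ∈ Q (answers Q A i), q.length ≤ s) ∧
    (D (answers Q A r) ↔ P)

/-- `InRounds c L`: the language `L` is decided in time `2 ^ O(n ^ c)`, with `n ^ c + c` bits of advice,
by an algorithm that asks an oracle in `NP` in `n ^ c + c` rounds; in each round it computes, from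
the input, the advice and the answers of the earlier rounds, a list of at most `2 ^ (k (n ^ c + 1))`
queries, of length at most `p(n)`, and receives all the answers. The time is polynomial in the
length of the input, of the advice, of the list of answers and of `2 ^ (k (n ^ c + 1))` symbols of
padding. -/
def InRounds (c : ℕ) (L : Set (List Bool)) : Prop :=
  ∃ (Q : List Bool → List (List Bool)) (D : List Bool → List Bool) (A : Set (List Bool))
    (p : Polynomial ℕ) (k : ℕ) (a : ℕ → List Bool),
    PolyTime (fun y => bits (Q y)) ∧ PolyTime D ∧ InNP A ∧ (∀ n, (a n).length ≤ n ^ c + c) ∧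
    ∀ x : List Bool,
      DecidesRounds (fun H => Q (data x (a x.length) (k * (x.length ^ c + 1)) H))
        (fun H => D (data x (a x.length) (k * (x.length ^ c + 1)) H) = [true]) A
        (x.length ^ c + c) (2 ^ (k * (x.length ^ c + 1))) (p.eval x.length) (x ∈ L)

theorem poly_of_polyTime_bits {β : Type} [TEnc β] {Q : List Bool → β}
    (hQ : PolyTime (fun y => bits (Q y))) : Poly Q := by
  have h1 : PC (id : List Bool → List Bool) (bits : β → List Bool) Q :=
    H642R2.TMSim.polyTime_toPC hQ
  exact PC.comp (g := Q) (f := fun x => x) h1 R591.rawOut

theorem poly_data {α : Type} [TEnc α] {x a : α → List Bool} {H : α → List (List Bool)}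
    {pad : α → List Unit} (hx : Poly x) (ha : Poly a) (hH : Poly H) (hpad : Poly pad) :
    Poly (fun t => pairBits (pairBits (pairBits (x t) (a t)) (bits (H t)))
      ((pad t).map (fun _ => false))) :=
  poly_pairBits (poly_pairBits (poly_pairBits hx ha) (poly_bitsOf hH))
    (NPC.Poly.map hpad (NPC.Poly.const _))

theorem rbig_of_rounds {c : ℕ} {L : Set (List Bool)} (h : InRounds c L) : RBig c L := by
  obtain ⟨Q, D, A, p, k, a, hQ, hD, ⟨VA, pA, hVA, hA⟩, ha, hL⟩ := h
  have hQ' : Poly Q := poly_of_polyTime_bits hQ
  have hD' : Poly D := poly_of_polyTime hD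
  have hVA' : Poly VA := poly_of_polyTime hVA
  set M : RM := ⟨fun t => Q (pairBits (pairBits (pairBits t.1 t.2.1) (bits t.2.2.1))
      (t.2.2.2.map (fun _ => false))),
    fun t => decide (D (pairBits (pairBits (pairBits t.1 t.2.1) (bits t.2.2.1))
      (t.2.2.2.map (fun _ => false))) = [true]),
    fun e => tstA VA pA e.1 e.2, p, pA, k⟩ with hM
  have hora : ∀ q, M.ora q = true ↔ q ∈ A := by
    intro q
    unfold RM.ora
    rw [List.any_eq_true, tstA_iff hA]
    simp only [hM, mem_allStr]
    constructor
    · rintro ⟨w, _, h⟩
      exact ⟨w, h⟩
    · rintro ⟨w, h⟩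
      refine ⟨w, ?_, h⟩
      unfold tstA at h
      rw [Bool.and_eq_true, decide_eq_true_eq] at h
      exact h.1
  refine ⟨M, a, ⟨?_, ?_, ?_, ?_, ha, ?_⟩⟩
  · exact hQ'.comp (poly_data (by fun_prop) (by fun_prop) (by fun_prop) (by fun_prop))
  · exact NPC.Poly.dec_eq (hD'.comp (poly_data (by fun_prop) (by fun_prop) (by fun_prop)
      (by fun_prop))) (NPC.Poly.const _)
  · exact poly_tstA hVA' (by fun_prop) (by fun_prop)
  · intro q w h
    simp only [hM] at h ⊢
    unfold tstA at h
    rw [Bool.and_eq_true, decide_eq_true_eq] at h
    exact h.1
  · intro x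
    obtain ⟨h1, h2⟩ := hL x
    have hrep : ∀ m : ℕ, (List.replicate m ()).map (fun _ => false) = List.replicate m false := by
      intro m
      rw [List.map_replicate]
    have key : ∀ i ≤ x.length ^ c + c, hist (M.qs c (x, a x.length)) M.ora i =
        answers (fun G => Q (data x (a x.length) (k * (x.length ^ c + 1)) G)) A i := by
      intro i
      induction i with
      | zero => intro _; rfl
      | succ i ih =>
        intro hi
        have ih' := ih (by omega)
        obtain ⟨h3, h4⟩ := h1 i (by omega)
        have h5 : M.qs c (x, a x.length) (hist (M.qs c (x, a x.length)) M.ora i) =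
            Q (data x (a x.length) (k * (x.length ^ c + 1))
              (answers (fun G => Q (data x (a x.length) (k * (x.length ^ c + 1)) G)) A i)) := by
          rw [ih']
          unfold RM.qs RM.ww
          simp only [hM, hrep]
          unfold data at h3 h4 ⊢
          rw [List.take_of_length_le h3, List.filter_eq_self.2]
          intro q hq
          rw [decide_eq_true_eq]
          exact h4 q hq
        rw [hist_succ, h5, ih']
        conv_rhs => rw [answers]
        congr 2
        refine List.map_congr_left fun q _ => ?_
        classical
        rw [Bool.eq_iff_iff, hora, decide_eq_true_eq]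
    rw [← h2, key _ le_rfl]
    unfold RM.dc RM.ww
    simp only [hM, hrep, decide_eq_true_eq]
    rfl

/-- **Main theorem on rounds.** -/
theorem main_rounds (c : ℕ) : ∃ L : Set (List Bool), InNEXP L ∧ ¬ InRounds c L := by
  obtain ⟨L, h1, h2⟩ := exists_not_rbig c
  exact ⟨L, h1, fun h => h2 (rbig_of_rounds h)⟩

end Pool.Agent.H75C.RD
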