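import Pool.Agent.H75C.RD.Sem
import Pool.Agent.H75C.NX.Hard

/-!
# A language in `NEXP` that is not decided by machines with rounds
-/

namespace Pool.Agent.H75C.RD

open Pool.Agent.NPC Pool.Agent.H660R2.NX Pool.Agent.H75C.NX

attribute [local irreducible] unpair

/-! ### Bounds -/

/-- The scale. -/
def LL (c l : ℕ) : ℕ := 2 ^ (NN c l ^ (c + 1))

/-- Bounded by a power of the scale. -/
def PB (c : ℕ) (f : ℕ → ℕ) : Prop := ∃ k, ∀ l, 1 ≤ l → f l ≤ LL c l ^ k

theorem one_le_nn {c l : ℕ} (h : 1 ≤ l) : 1 ≤ nn c l := Nat.one_le_pow _ _ h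

theorem le_nn {c l : ℕ} (h : 1 ≤ l) : l ≤ nn c l := by
  unfold nn
  calc l = l ^ 1 := (pow_one l).symm
    _ ≤ l ^ (2 * c + 4) := Nat.pow_le_pow_right h (by omega)

theorem four_le_NN {c l : ℕ} (h : 1 ≤ l) : 4 ≤ NN c l := by
  have := one_le_nn (c := c) h
  unfold NN
  omega

theorem le_NN {c l : ℕ} (h : 1 ≤ l) : l ≤ NN c l := by
  have := le_nn (c := c) h
  unfold NN
  omega

theorem NN_le_pow {c l : ℕ} : NN c l ≤ NN c l ^ (c + 1) := by
  calc NN c l = NN c l ^ 1 := (pow_one _).symm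
    _ ≤ NN c l ^ (c + 1) := Nat.pow_le_pow_right (by unfold NN; omega) (by omega)

theorem KK_le_pow {c l : ℕ} (h : 1 ≤ l) : KK c l ≤ NN c l ^ (c + 1) := by
  have h4 := four_le_NN (c := c) h
  have h1 : c ≤ NN c l ^ c := by
    have h2 : c < 2 ^ c := Nat.lt_two_pow_self
    have h3 : 2 ^ c ≤ NN c l ^ c := Nat.pow_le_pow_left (by omega) c
    omega
  unfold KK
  rw [pow_succ]
  nlinarith

theorem two_le_LL (c l : ℕ) : 2 ≤ LL c l := by
  unfold LL
  calc 2 = 2 ^ 1 := rfl
    _ ≤ 2 ^ (NN c l ^ (c + 1)) := Nat.pow_le_pow_right (by norm_num)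
        (Nat.one_le_pow _ _ (by unfold NN; omega))

theorem PB.mono {c : ℕ} {f g : ℕ → ℕ} (hg : PB c g) (h : ∀ l, 1 ≤ l → f l ≤ g l) : PB c f := by
  obtain ⟨k, hk⟩ := hg
  exact ⟨k, fun l hl => (h l hl).trans (hk l hl)⟩

theorem PB.const (c n : ℕ) : PB c (fun _ => n) := by
  refine ⟨n, fun l _ => ?_⟩
  have h1 : n < 2 ^ n := Nat.lt_two_pow_self
  exact h1.le.trans (Nat.pow_le_pow_left (two_le_LL c l) n)

theorem PB.mul {c : ℕ} {f g : ℕ → ℕ} (hf : PB c f) (hg : PB c g) : PB c (fun l => f l * g l) := by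
  obtain ⟨k, hk⟩ := hf
  obtain ⟨m, hm⟩ := hg
  refine ⟨k + m, fun l hl => ?_⟩
  rw [pow_add]
  exact Nat.mul_le_mul (hk l hl) (hm l hl)

theorem PB.add {c : ℕ} {f g : ℕ → ℕ} (hf : PB c f) (hg : PB c g) : PB c (fun l => f l + g l) := by
  obtain ⟨k, hk⟩ := hf
  obtain ⟨m, hm⟩ := hg
  refine ⟨k + m + 1, fun l hl => ?_⟩
  have h1 := hk l hl
  have h2 := hm l hl
  have h3 := two_le_LL c l
  have h4 : LL c l ^ k ≤ LL c l ^ (k + m) := Nat.pow_le_pow_right (by omega) (by omega)
  have h5 : LL c l ^ m ≤ LL c l ^ (k + m) := Nat.pow_le_pow_right (by omega) (by omega)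
  rw [pow_succ]
  nlinarith

theorem PB.poly {c : ℕ} {f : ℕ → ℕ} (hf : PB c f) (p : Polynomial ℕ) :
    PB c (fun l => p.eval (f l)) := by
  induction p using Polynomial.induction_on' with
  | add p q hp hq =>
    simp only [Polynomial.eval_add]
    exact hp.add hq
  | monomial n a =>
    simp only [Polynomial.eval_monomial]
    refine (PB.const c a).mul ?_
    obtain ⟨k, hk⟩ := hf
    refine ⟨k * n, fun l hl => ?_⟩
    rw [pow_mul]
    exact Nat.pow_le_pow_left (hk l hl) n

theorem PB.pow2 {c : ℕ} {f : ℕ → ℕ} (m : ℕ) (h : ∀ l, 1 ≤ l → f l ≤ m * NN c l ^ (c + 1)) :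
    PB c (fun l => 2 ^ f l) := by
  refine ⟨m, fun l hl => ?_⟩
  unfold LL
  rw [← pow_mul, Nat.mul_comm]
  exact Nat.pow_le_pow_right (by norm_num) (h l hl)

theorem PB.of_pow2 {c : ℕ} {f : ℕ → ℕ} (h : PB c (fun l => 2 ^ f l)) : PB c f :=
  h.mono (fun _ _ => Nat.lt_two_pow_self.le)

theorem pb_NN2 (c : ℕ) : PB c (fun l => 2 ^ NN c l) :=
  PB.pow2 1 (fun l _ => by rw [one_mul]; exact NN_le_pow)
theorem pb_NN (c : ℕ) : PB c (fun l => NN c l) := (pb_NN2 c).of_pow2
theorem pb_nn2 (c : ℕ) : PB c (fun l => 2 ^ nn c l) :=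
  PB.pow2 1 (fun l _ => by rw [one_mul]; exact le_trans (by unfold NN; omega) NN_le_pow)
theorem pb_nn (c : ℕ) : PB c (fun l => nn c l) := (pb_nn2 c).of_pow2
theorem pb_l2 (c : ℕ) : PB c (fun l => 2 ^ l) :=
  (pb_nn2 c).mono (fun l hl => Nat.pow_le_pow_right (by norm_num) (le_nn hl))
theorem pb_l (c : ℕ) : PB c (fun l => l) := (pb_l2 c).of_pow2
theorem pb_KK2 (c : ℕ) : PB c (fun l => 2 ^ KK c l) :=
  PB.pow2 1 (fun l hl => by rw [one_mul]; exact KK_le_pow hl)
theorem pb_KK (c : ℕ) : PB c (fun l => KK c l) := (pb_KK2 c).of_pow2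
theorem ss_le (c l : ℕ) (h : 1 ≤ l) : ss c l ≤ 2 * NN c l ^ (c + 1) := by
  have h1 := KK_le_pow (c := c) h
  have h2 := NN_le_pow (c := c) (l := l)
  have h3 : nn c l + 2 ≤ NN c l := by
    have := one_le_nn (c := c) h
    unfold NN
    omega
  unfold ss
  omega
theorem pb_ss2 (c : ℕ) : PB c (fun l => 2 ^ ss c l) := PB.pow2 2 (ss_le c)
theorem pb_ss (c : ℕ) : PB c (fun l => ss c l) := (pb_ss2 c).of_pow2
theorem lc_le (c l : ℕ) (h : 1 ≤ l) : l ^ c + c ≤ KK c l := by
  unfold KK
  have : l ^ c ≤ NN c l ^ c := Nat.pow_le_pow_left (le_NN h) c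
  omega
theorem pb_lc2 (c : ℕ) : PB c (fun l => 2 ^ (l ^ c + c)) :=
  (pb_KK2 c).mono (fun l hl => Nat.pow_le_pow_right (by norm_num) (lc_le c l hl))
theorem pb_lc (c : ℕ) : PB c (fun l => l ^ c + c) := (pb_lc2 c).of_pow2

theorem pb_ww2 (M : RM) (c : ℕ) : PB c (fun l => 2 ^ M.ww c (NN c l)) := by
  refine PB.pow2 (2 * M.k) (fun l hl => ?_)
  unfold RM.ww
  have h1 : NN c l ^ c ≤ NN c l ^ (c + 1) :=
    Nat.pow_le_pow_right (by unfold NN; omega) (by omega)
  have h2 : 1 ≤ NN c l ^ (c + 1) := Nat.one_le_pow _ _ (by unfold NN; omega)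
  calc M.k * (NN c l ^ c + 1) ≤ M.k * (NN c l ^ (c + 1) + NN c l ^ (c + 1)) :=
        Nat.mul_le_mul_left _ (by omega)
    _ = 2 * M.k * NN c l ^ (c + 1) := by ring

theorem ww_le (M : RM) (c l : ℕ) (hl : 1 ≤ l) : M.ww c l ≤ M.ww c (NN c l) := by
  unfold RM.ww
  have : l ^ c ≤ NN c l ^ c := Nat.pow_le_pow_left (le_NN hl) c
  exact Nat.mul_le_mul_left _ (by omega)

theorem pb_ww2' (M : RM) (c : ℕ) : PB c (fun l => 2 ^ M.ww c l) :=
  (pb_ww2 M c).mono (fun l hl => Nat.pow_le_pow_right (by norm_num) (ww_le M c l hl))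

/-- A bound for the size of the first list. -/
noncomputable def bd1 (M1 : RM) (c l : ℕ) : ℕ :=
  (l ^ c + c) * (2 ^ l * 2 ^ M1.ww c l) *
    (4 * M1.p.eval l + 4 * M1.P.eval (M1.p.eval l) + 4) + 1

/-- A bound for the size of the second list. -/
noncomputable def bd2 (M : RM) (c l : ℕ) : ℕ :=
  KK c l * ((2 ^ nn c l * 2 ^ KK c l * 2 * ss c l) * 2 ^ M.ww c (NN c l)) *
    (4 * M.p.eval (NN c l) + 4 * M.P.eval (M.p.eval (NN c l)) + 4) + 1

theorem pb_bd1 (M1 : RM) (c : ℕ) : PB c (bd1 M1 c) := by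
  unfold bd1
  refine PB.add (PB.mul (PB.mul (pb_lc c) (PB.mul (pb_l2 c) (pb_ww2' M1 c))) ?_) (PB.const c 1)
  refine PB.add (PB.add ?_ ?_) (PB.const c 4)
  · exact PB.mul (PB.const c 4) ((pb_l c).poly _)
  · exact PB.mul (PB.const c 4) (((pb_l c).poly _).poly _)

theorem pb_bd2 (M : RM) (c : ℕ) : PB c (bd2 M c) := by
  unfold bd2
  refine PB.add (PB.mul (PB.mul (pb_KK c) (PB.mul ?_ (pb_ww2 M c))) ?_) (PB.const c 1)
  · exact PB.mul (PB.mul (PB.mul (pb_nn2 c) (pb_KK2 c)) (PB.const c 2)) (pb_ss c)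
  · refine PB.add (PB.add ?_ ?_) (PB.const c 4)
    · exact PB.mul (PB.const c 4) ((pb_NN c).poly _)
    · exact PB.mul (PB.const c 4) (((pb_NN c).poly _).poly _)

theorem sz_cert_le {E : List (List Bool × List Bool)} {n1 n2 m : ℕ}
    (h : ∀ e ∈ E, e.1.length ≤ n1 ∧ e.2.length ≤ n2) (hE : E.length ≤ m) :
    sz E ≤ m * (4 * n1 + 4 * n2 + 4) + 1 := by
  refine (sz_le_length_mul E (4 * n1 + 4 * n2 + 3) ?_).trans ?_
  · intro e he
    obtain ⟨h1, h2⟩ := h e he
    have a1 := sz_str_le h1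
    have a2 := sz_str_le h2
    obtain ⟨q, w⟩ := e
    simp only [sz_pair]
    simp only at a1 a2
    omega
  · have := Nat.mul_le_mul_right (4 * n1 + 4 * n2 + 4) hE
    have e1 : 4 * n1 + 4 * n2 + 3 + 1 = 4 * n1 + 4 * n2 + 4 := by omega
    rw [e1]
    omega

theorem length_ZL_le' (c l : ℕ) :
    (ZL c l).length ≤ 2 ^ nn c l * 2 ^ KK c l * 2 * ss c l := by
  refine (length_ZL_le c l).trans (le_of_eq ?_)
  rw [pow_add, pow_add, pow_one]

/-! ### The size of profiles -/

theorem sz_prof_le {C : List ℕ} {R s : ℕ} (hC : C.length = R) (h : ∀ m ∈ C, m < 2 ^ s) :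
    sz C ≤ R * (4 * s + 2) + 1 := by
  rw [← hC]
  refine (sz_le_length_mul C (4 * s + 1) ?_).trans (le_of_eq (by ring))
  intro m hm
  have h1 := sz_nat_le m
  have h2 : m.size ≤ s := Nat.size_le.2 (h m hm)
  omega

theorem sz_tau_le (M : RM) (c : ℕ) (a : ℕ → List Bool) (l : ℕ) :
    sz (tau M c a l) ≤ (l ^ c + c) * (4 * (l + M.ww c l + 1) + 2) + 1 := by
  refine sz_prof_le length_prof ?_
  intro m hm
  have h1 : m ≤ (Z1 (a l) l).length * 2 ^ M.ww c l := by
    -- the queries of the instances of length `l`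
    unfold tau prof at hm
    rw [List.mem_map] at hm
    obtain ⟨i, _, rfl⟩ := hm
    refine (List.sum_le_card_nsmul _ (2 ^ M.ww c l) ?_).trans ?_
    · intro m hm
      rw [List.mem_map] at hm
      obtain ⟨z, hz, rfl⟩ := hm
      refine (List.length_filter_le _ _).trans ((length_qs _ _ _ _).trans ?_)
      rw [(mem_Z1.1 hz).1]
    · rw [List.length_map, smul_eq_mul]
  have h2 : (Z1 (a l) l).length = 2 ^ l := by
    unfold Z1
    rw [List.length_map, length_strs]
  rw [h2, ← pow_add] at h1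
  exact h1.trans_lt (Nat.pow_lt_pow_right (by norm_num) (by omega))

/-- A polynomial bound for the size of the profile. -/
noncomputable def csB (M : RM) (c : ℕ) : Polynomial ℕ :=
  KKP c * (4 * (nnP c + KKP c + 1 + ssP c + Polynomial.C M.k * (NNP c ^ c + 1) + 1) + 2) + 2

theorem csB_eval (M : RM) (c l : ℕ) : (csB M c).eval l =
    KK c l * (4 * (nn c l + KK c l + 1 + ss c l + M.ww c (NN c l) + 1) + 2) + 2 := by
  simp [csB, nnP_eval, KKP_eval, ssP_eval, NNP_eval, RM.ww]

theorem tn_cs_lt (M : RM) (c l : ℕ) : tn (cs M c l) < 2 ^ (csB M c).eval l := by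
  refine (tn_lt _).trans_le (Nat.pow_le_pow_right (by norm_num) ?_)
  rw [csB_eval]
  have h : sz (cs M c l) ≤
      KK c l * (4 * (nn c l + KK c l + 1 + ss c l + M.ww c (NN c l) + 1) + 2) + 1 := by
    refine sz_prof_le length_prof ?_
    intro m hm
    have h1 : m ≤ (ZL c l).length * 2 ^ M.ww c (NN c l) := by
      unfold cs prof at hm
      rw [List.mem_map] at hm
      obtain ⟨i, _, rfl⟩ := hm
      refine (List.sum_le_card_nsmul _ (2 ^ M.ww c (NN c l)) ?_).trans ?_
      · intro m hm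
        rw [List.mem_map] at hm
        obtain ⟨z, hz, rfl⟩ := hm
        refine (List.length_filter_le _ _).trans ((length_qs _ _ _ _).trans ?_)
        rw [length_of_mem_ZL hz]
      · rw [List.length_map, smul_eq_mul]
    have h2 : (ZL c l).length * 2 ^ M.ww c (NN c l) ≤
        2 ^ (nn c l + KK c l + 1 + ss c l + M.ww c (NN c l)) := by
      rw [pow_add _ _ (M.ww c (NN c l))]
      refine Nat.mul_le_mul_right _ ((length_ZL_le c l).trans ?_)
      rw [pow_add _ _ (ss c l)]
      exact Nat.mul_le_mul_left _ Nat.lt_two_pow_self.le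
    refine (h1.trans h2).trans_lt (Nat.pow_lt_pow_right (by norm_num) (by omega))
  omega

/-! ### The raw verifier -/

/-- The context: the parameter in unary, the advice for the first machine, its profile. -/
abbrev CtxT : Type := List Unit × List Bool × List ℕ
/-- Certificates. -/
abbrev CertT : Type :=
  List (List Bool × List Bool) × List (List Bool × List Bool) × List Unit

/-- The raw verifier. -/
noncomputable def vraw (M M1 : RM) (c : ℕ) (v : List Bool) : Bool :=
  (unbits CtxT (unpair (unpair v).1).1).elim false (fun ctx =>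
    (unbits CertT (unpair v).2).elim false (fun ct =>
      ver M M1 c ctx.1 ctx.2.1 ctx.2.2 (unpair (unpair v).1).2 ct.1 ct.2.1 ct.2.2))

theorem poly_vraw {M M1 : RM} (hQ : Poly M.Q) (hD : Poly M.D) (hV : Poly M.V)
    (hQ1 : Poly M1.Q) (hD1 : Poly M1.D) (hV1 : Poly M1.V) (c : ℕ) : Poly (vraw M M1 c) := by
  unfold vraw
  have h0 : Poly (unbits CtxT) := poly_unbits
  have h0' : Poly (unbits CertT) := poly_unbits
  have h1 : Poly (fun v : List Bool => unbits CtxT (unpair (unpair v).1).1) :=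
    h0.comp (by fun_prop)
  have h2 : Poly (fun p : List Bool × CtxT => unbits CertT (unpair p.1).2) :=
    h0'.comp (by fun_prop)
  refine Poly.optElim h1 (by fun_prop) (Poly.optElim h2 (by fun_prop) ?_)
  exact poly_ver hQ hD hV hQ1 hD1 hV1 c (el := fun q : (List Bool × CtxT) × CertT => q.1.2.1)
    (a := fun q => q.1.2.2.1) (C := fun q => q.1.2.2.2) (x := fun q => (unpair (unpair q.1.1).1).2)
    (E1 := fun q => q.2.1) (E2 := fun q => q.2.2.1) (pad := fun q => q.2.2.2) (by fun_prop)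
    (by fun_prop) (by fun_prop) (by fun_prop) (by fun_prop) (by fun_prop) (by fun_prop)

theorem vraw_some {M M1 : RM} {c : ℕ} {ctx : CtxT} {x : List Bool} {ct : CertT} :
    vraw M M1 c (pairBits (pairBits (bits ctx) x) (bits ct)) =
      ver M M1 c ctx.1 ctx.2.1 ctx.2.2 x ct.1 ct.2.1 ct.2.2 := by
  unfold vraw
  rw [unpair_pairBits]
  simp only
  rw [unpair_pairBits]
  simp only
  rw [unbits_bits, unbits_bits]
  rfl

theorem vraw_cert {M M1 : RM} {c : ℕ} {ctx : CtxT} {x w : List Bool}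
    (h : vraw M M1 c (pairBits (pairBits (bits ctx) x) w) = true) :
    ∃ ct : CertT, ver M M1 c ctx.1 ctx.2.1 ctx.2.2 x ct.1 ct.2.1 ct.2.2 = true := by
  unfold vraw at h
  rw [unpair_pairBits] at h
  simp only at h
  rw [unpair_pairBits] at h
  simp only at h
  rw [unbits_bits] at h
  simp only [Option.elim_some] at h
  cases hct : unbits CertT w with
  | none => rw [hct] at h; simp at h
  | some ct =>
    rw [hct] at h
    exact ⟨ct, h⟩

/-- The context. -/
def ctx0 (M1 : RM) (c : ℕ) (a1 : ℕ → List Bool) (l : ℕ) : CtxT :=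
  (List.replicate l (), a1 l, tau M1 c a1 l)

theorem sz_ctx0_le {M1 : RM} {c l : ℕ} {a1 : ℕ → List Bool} (ha : (a1 l).length ≤ l ^ c + c) :
    sz (ctx0 M1 c a1 l) ≤ 4 * l + 4 * (l ^ c + c) +
      (l ^ c + c) * (4 * (l + M1.ww c l + 1) + 2) + 5 := by
  unfold ctx0
  have h1 := sz_replicate_unit l
  have h2 := sz_str_le ha
  have h3 := sz_tau_le M1 c a1 l
  simp only [sz_pair]
  omega

/-! ### The main argument -/

/-- The main argument for one parameter. -/
theorem contra {M M1 : RM} {c l : ℕ} {a a1 : ℕ → List Bool} (hM : M.Ok c (KE c) a)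
    (hM1 : M1.Ok c (Bset M c) a1) {e : Code} {p : Polynomial ℕ}
    (he : IsCode e (fun v => [vraw M M1 c v]) p)
    (hcode : 2 * (bits (e, bits (ctx0 M1 c a1 l))).length + 1 ≤ nn c l)
    (hT : tn (cs M c l) < 2 ^ (2 ^ l)) (hs : ss c l ≤ 2 ^ nn c l)
    (hB : ∀ w : List Bool, ∀ x : List Bool, x.length = nn c l →
      w.length ≤ bd1 M1 c l + bd2 M c l + 4 * 2 ^ (RRP M M1 c).eval l + 3 →
      2 * w.length + 1 + p.eval (pairBits (pairBits (bits (ctx0 M1 c a1 l)) x) w).length ≤
        2 ^ (NN c l ^ (c + 3) + (c + 3))) : False := by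
  set s := bits (ctx0 M1 c a1 l) with hs0
  set r : List Bool := List.replicate (nn c l - (2 * (bits (e, s)).length + 1)) false with hr
  set u := pairBits (bits (e, s)) r with hu
  have hul : u.length = nn c l := by
    rw [hu, length_pairBits, hr, List.length_replicate]
    omega
  have hyl : ∀ x : List Bool, x.length = nn c l → (pairBits u x).length = NN c l := by
    intro x hx
    rw [length_pairBits, hul, hx]
    unfold NN
    ring
  have key : ∀ x : List Bool, x.length = nn c l →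
      (pairBits u x ∈ KE c ↔ (x, true) ∈ (XL c l).zip (dgT M c l)) := by
    intro x hx
    constructor
    · intro h
      obtain ⟨w, hw⟩ := KE_sound he h
      obtain ⟨ct, hct⟩ := vraw_cert hw
      exact ver_sound hM hM1 hT hct
    · intro h
      obtain ⟨E1, E2, h1, h2, h3, h4, h5⟩ := ver_complete hM hM1 hT h
      refine KE_complete he
        (w := bits ((E1, E2, List.replicate (2 ^ (RRP M M1 c).eval l) ()) : CertT)) ?_ ?_
      · rw [hs0, vraw_some]
        exact h1
      · rw [← hu, hyl x hx]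
        refine hB _ x hx ?_
        rw [bits_length]
        simp only [sz_pair]
        have h6 : sz E1 ≤ bd1 M1 c l := sz_cert_le h2 h3
        have h7 : sz E2 ≤ bd2 M c l := by
          refine sz_cert_le h4 (h5.trans ?_)
          exact Nat.mul_le_mul_left _ (Nat.mul_le_mul_right _ (length_ZL_le' c l))
        have h8 := sz_replicate_unit (2 ^ (RRP M M1 c).eval l)
        omega
  -- the pair of `u` and the true advice
  have hub : (u, a (NN c l)) ∈ UB c l := by
    rw [mem_UB]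
    exact ⟨hul, hM.adv _⟩
  set pt := pat (M.dc c) (M.qs c) M.ora (KK c l) (XL c l) (u, a (NN c l)) with hpt
  have hmem : pt ∈ patsT M c l := by
    unfold patsT
    exact List.mem_map.2 ⟨_, hub, rfl⟩
  have hXlen : (XL c l).length = ss c l := by
    unfold XL
    rw [List.length_take, length_strs, min_eq_left hs]
  have hXnd : (XL c l).Nodup := (nodup_strs _).sublist (List.take_sublist _ _)
  obtain ⟨hd1, hd2⟩ := dgT_spec M c l
  apply hd2
  have heq : pt = dgT M c l := by
    apply List.ext_getElem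
    · rw [hpt]
      unfold pat
      rw [List.length_map, hXlen, hd1]
    · intro i h1 h2
      have h1' : i < (XL c l).length := by
        rw [hpt] at h1
        unfold pat at h1
        rwa [List.length_map] at h1
      have hxl : ((XL c l)[i]).length = nn c l := mem_XL (List.getElem_mem h1')
      have h3 : pt[i] = fin (M.dc c) (M.qs c) M.ora (KK c l)
          (pairBits u (XL c l)[i], a (NN c l)) := by
        simp only [hpt, pat, List.getElem_map]
      have h4 := hM.dec (pairBits u (XL c l)[i])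
      rw [hyl _ hxl] at h4
      rw [h3, Bool.eq_iff_iff]
      unfold fin KK
      rw [← h4, key _ hxl, List.mem_iff_getElem]
      constructor
      · rintro ⟨j, hj, h⟩
        rw [List.getElem_zip, Prod.mk.injEq] at h
        have := (List.Nodup.getElem_inj_iff hXnd).1 h.1
        subst this
        exact h.2
      · intro h
        refine ⟨i, by rw [List.length_zip]; omega, ?_⟩
        rw [List.getElem_zip, h]
  rw [← heq]
  exact hmem

theorem exists_not_rbig (c : ℕ) : ∃ L, InNEXP L ∧ ¬ RBig c L := by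
  by_contra hcon
  push Not at hcon
  obtain ⟨M, a, hM⟩ := hcon (KE c) (inNEXP_KE c)
  obtain ⟨M1, a1, hM1⟩ := hcon (Bset M c) (inNEXP_Bset hM.hQ hM.hV c)
  obtain ⟨e, p, he⟩ := U_complete (polyTime_of_poly
    (poly_vraw hM.hQ hM.hD hM.hV hM1.hQ hM1.hD hM1.hV c))
  -- bounds
  set wb : ℕ → ℕ := fun l => bd1 M1 c l + bd2 M c l + 4 * 2 ^ (RRP M M1 c).eval l + 3 with hwb
  set sb : ℕ → ℕ := fun l => 4 * l + 4 * (l ^ c + c) +
      (l ^ c + c) * (4 * (l + M1.ww c l + 1) + 2) + 5 with hsb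
  set W : ℕ → ℕ := fun l => 2 * wb l + 1 + p.eval (2 * (2 * sb l + 1 + nn c l) + 1 + wb l) with hW
  have hRR : PB c (fun l => 2 ^ (RRP M M1 c).eval l) := by
    refine PB.mono (g := fun l => 2 ^ l * 2 ^ nn c l * 2 ^ KK c l * 2 ^ ss c l *
      2 ^ M1.ww c l * 2 ^ M.ww c (NN c l)) ?_ ?_
    · exact (((((pb_l2 c).mul (pb_nn2 c)).mul (pb_KK2 c)).mul (pb_ss2 c)).mul
        (pb_ww2' M1 c)).mul (pb_ww2 M c)
    · intro l _
      rw [RRP_eval, pow_add, pow_add, pow_add, pow_add, pow_add]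
  have hwbP : PB c wb :=
    (((pb_bd1 M1 c).add (pb_bd2 M c)).add ((PB.const c 4).mul hRR)).add (PB.const c 3)
  have hww1 : PB c (fun l => M1.ww c l) := (pb_ww2' M1 c).of_pow2
  have hsbP : PB c sb :=
    ((((PB.const c 4).mul (pb_l c)).add ((PB.const c 4).mul (pb_lc c))).add
      ((pb_lc c).mul (((PB.const c 4).mul (((pb_l c).add hww1).add (PB.const c 1))).add
        (PB.const c 2)))).add (PB.const c 5)
  have hWP : PB c W := by
    refine PB.add (PB.add ((PB.const c 2).mul hwbP) (PB.const c 1)) (PB.poly ?_ p)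
    exact PB.add (PB.add ((PB.const c 2).mul (PB.add (PB.add ((PB.const c 2).mul hsbP)
      (PB.const c 1)) (pb_nn c))) (PB.const c 1)) hwbP
  obtain ⟨k, hk⟩ := hWP
  obtain ⟨l1, hl1⟩ := poly_lt_two_pow (csB M c)
  obtain ⟨l2, hl2⟩ := poly_lt_two_pow (ssP c)
  set C := sz e with hC
  set l := 1000 + c + k + l1 + l2 + C + M1.k with hl
  have hl0 : 1 ≤ l := by omega
  refine contra (l := l) hM hM1 he ?_ ?_ ?_ ?_
  · -- the code is short
    rw [bits_length, sz_pair]
    have h1 := sz_ctx0_le (M1 := M1) (hM1.adv l)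
    rw [← bits_length] at h1
    have h2 := sz_str_le h1
    have h4 : 1 ≤ l ^ c := Nat.one_le_pow _ _ hl0
    have h5 : 1000 ≤ l := by omega
    have h6 : c ≤ l ^ c := by
      rcases Nat.eq_zero_or_pos c with h0 | h0
      · rw [h0]; omega
      · calc c ≤ l := by omega
          _ = l ^ 1 := (pow_one l).symm
          _ ≤ l ^ c := Nat.pow_le_pow_right hl0 h0
    have h7 : C ≤ l := by omega
    have h8 : M1.k ≤ l := by omega
    -- the square
    set s := l ^ c with hs
    have e1 : M1.ww c l ≤ l * (s + 1) := by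
      unfold RM.ww
      exact Nat.mul_le_mul_right _ h8
    have e2 : (s + c) * (4 * (l + M1.ww c l + 1) + 2) ≤ 40 * (s * s * l) := by
      have e3 : s + c ≤ 2 * s := by omega
      have e4 : 4 * (l + M1.ww c l + 1) + 2 ≤ 20 * (s * l) := by
        have e5 : l ≤ s * l := Nat.le_mul_of_pos_left _ (by omega)
        have e6 : l * (s + 1) = s * l + l := by ring
        omega
      calc (s + c) * (4 * (l + M1.ww c l + 1) + 2) ≤ (2 * s) * (20 * (s * l)) :=
            Nat.mul_le_mul e3 e4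
        _ = 40 * (s * s * l) := by ring
    have e7 : nn c l = s * s * l * l * l * l := by
      unfold nn
      rw [hs, pow_add, Nat.mul_comm 2 c, pow_mul]
      ring
    have e8 : s ≤ s * s := Nat.le_mul_of_pos_left _ (by omega)
    have e9 : l ≤ s * s * l := Nat.le_mul_of_pos_left _ (by nlinarith)
    have e10 : s * s ≤ s * s * l := Nat.le_mul_of_pos_right _ (by omega)
    have e11 : s * s * l * 1000 ≤ s * s * l * l := Nat.mul_le_mul_left _ h5
    have e12 : s * s * l * l ≤ s * s * l * l * l := Nat.le_mul_of_pos_right _ (by omega)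
    have e13 : s * s * l * l * l ≤ s * s * l * l * l * l := Nat.le_mul_of_pos_right _ (by omega)
    have e14 : 1000 ≤ s * s * l := by omega
    rw [e7]
    omega
  · -- the profile is not too large
    refine (tn_cs_lt M c l).trans_le (Nat.pow_le_pow_right (by norm_num) ?_)
    exact (hl1 l (by omega)).le
  · have := hl2 l (by omega)
    rw [ssP_eval] at this
    exact this.le.trans (Nat.pow_le_pow_right (by norm_num) (le_nn hl0))
  · intro w x hx hw
    have h1 : (pairBits (pairBits (bits (ctx0 M1 c a1 l)) x) w).length ≤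
        2 * (2 * sb l + 1 + nn c l) + 1 + wb l := by
      rw [length_pairBits, length_pairBits, hx]
      have := sz_ctx0_le (M1 := M1) (hM1.adv l)
      rw [← bits_length] at this
      have h3 : w.length ≤ wb l := hw
      have h4 : (bits (ctx0 M1 c a1 l)).length ≤ sb l := this
      omega
    have h2 := eval_mono p h1
    have h3 : w.length ≤ wb l := hw
    have h4 : 2 * w.length + 1 + p.eval (pairBits (pairBits (bits (ctx0 M1 c a1 l)) x) w).length ≤
        W l := by
      have : W l = 2 * wb l + 1 + p.eval (2 * (2 * sb l + 1 + nn c l) + 1 + wb l) := rfl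
      omega
    refine h4.trans ((hk l hl0).trans ?_)
    unfold LL
    rw [← pow_mul]
    refine Nat.pow_le_pow_right (by norm_num) ?_
    have h5 : k ≤ NN c l := by
      have := le_nn (c := c) hl0
      unfold NN
      omega
    have h6 : NN c l ≤ NN c l ^ 2 := by nlinarith [four_le_NN (c := c) hl0]
    calc NN c l ^ (c + 1) * k ≤ NN c l ^ (c + 1) * NN c l ^ 2 :=
          Nat.mul_le_mul_left _ (h5.trans h6)
      _ = NN c l ^ (c + 3) := by rw [← pow_add]
      _ ≤ _ := by omega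

end Pool.Agent.H75C.RD
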