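import Pool.Agent.H75C.NX.Census

/-!
# Computations with rounds of parallel queries
-/

namespace Pool.Agent.H75C.RD

open Pool.Agent.NPC Pool.Agent.H660R2.NX Pool.Agent.H75C.NX

/-- The lists of answers of the first `i` rounds: `qf` maps the answers received so far to the list
of the queries of the next round, and `o` answers the queries. -/
def hist (qf : List (List Bool) → List (List Bool)) (o : List Bool → Bool) (i : ℕ) :
    List (List Bool) :=
  (List.range i).foldl (fun H _ => H ++ [(qf H).map o]) []

theorem hist_zero (qf : List (List Bool) → List (List Bool)) (o : List Bool → Bool) :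
    hist qf o 0 = [] := rfl

theorem hist_succ (qf : List (List Bool) → List (List Bool)) (o : List Bool → Bool) (i : ℕ) :
    hist qf o (i + 1) = hist qf o i ++ [(qf (hist qf o i)).map o] := by
  unfold hist
  rw [List.range_succ, List.foldl_append]
  rfl

/-- The numbers of the answers `true` in the rounds, for all `z` in `Z` together. -/
def prof {β : Type} (Z : List β) (qf : β → List (List Bool) → List (List Bool))
    (o : List Bool → Bool) (R : ℕ) : List ℕ :=
  (List.range R).map (fun i => (Z.map (fun z =>
    ((qf z (hist (qf z) o i)).filter o).length)).sum)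

theorem map_eq_of_filter {o o' : List Bool → Bool} (hle : ∀ q, o' q = true → o q = true) :
    ∀ l : List (List Bool), ((l.filter o').length ≤ (l.filter o).length) ∧
      ((l.filter o').length = (l.filter o).length → l.map o' = l.map o)
  | [] => by simp
  | q :: l => by
    obtain ⟨h1, h2⟩ := map_eq_of_filter hle l
    rw [List.filter_cons, List.filter_cons, List.map_cons, List.map_cons]
    cases h3 : o' q with
    | true =>
      rw [hle q h3]
      simp only [if_true, List.length_cons]
      refine ⟨by omega, fun h => ?_⟩
      rw [h2 (by omega)]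
    | false =>
      cases h4 : o q with
      | true =>
        simp only [Bool.false_eq_true, if_false, if_true, List.length_cons]
        exact ⟨by omega, fun h => absurd h (by omega)⟩
      | false =>
        simp only [Bool.false_eq_true, if_false]
        exact ⟨h1, fun h => by rw [h2 h]⟩

theorem hist_eq_of_prof {β : Type} {Z : List β} {qf : β → List (List Bool) → List (List Bool)}
    {o o' : List Bool → Bool} {R : ℕ} (hle : ∀ q, o' q = true → o q = true)
    (h : prof Z qf o' R = prof Z qf o R) :
    ∀ i ≤ R, ∀ z ∈ Z, hist (qf z) o' i = hist (qf z) o i := by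
  intro i
  induction i with
  | zero => intro _ z _; rfl
  | succ i ih =>
    intro hi
    have ih' := ih (by omega)
    have h1 : (Z.map (fun z => ((qf z (hist (qf z) o' i)).filter o').length)).sum =
        (Z.map (fun z => ((qf z (hist (qf z) o i)).filter o).length)).sum := by
      have h2 := congrArg (fun l : List ℕ => l.getD i 0) h
      unfold prof at h2
      simpa only [List.getD_eq_getElem?_getD, List.getElem?_map,
        List.getElem?_range (show i < R by omega), Option.map_some, Option.getD_some] using h2
    have h3 : (Z.map (fun z => ((qf z (hist (qf z) o i)).filter o').length)).sum =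
        (Z.map (fun z => ((qf z (hist (qf z) o i)).filter o).length)).sum := by
      rw [← h1]
      congr 1
      refine List.map_congr_left fun z hz => ?_
      rw [ih' z hz]
    have h4 := sum_le_eq Z _ _ (fun z _ => (map_eq_of_filter hle _).1) h3
    intro z hz
    rw [hist_succ, hist_succ, ih' z hz, (map_eq_of_filter hle _).2 (h4 z hz)]

theorem hist_congr {qf : List (List Bool) → List (List Bool)} {o o' : List Bool → Bool} {R : ℕ}
    (h : ∀ i < R, ∀ q ∈ qf (hist qf o i), o' q = o q) :
    ∀ i ≤ R, hist qf o' i = hist qf o i := by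
  intro i
  induction i with
  | zero => intro _; rfl
  | succ i ih =>
    intro hi
    have ih' := ih (by omega)
    rw [hist_succ, hist_succ, ih']
    congr 2
    exact List.map_congr_left (h i (by omega))

theorem prof_congr {β : Type} {Z : List β} {qf : β → List (List Bool) → List (List Bool)}
    {o o' : List Bool → Bool} {R : ℕ}
    (h : ∀ z ∈ Z, ∀ i < R, ∀ q ∈ qf z (hist (qf z) o i), o' q = o q) :
    prof Z qf o' R = prof Z qf o R := by
  unfold prof
  refine List.map_congr_left fun i hi => ?_
  rw [List.mem_range] at hi
  congr 1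
  refine List.map_congr_left fun z hz => ?_
  rw [hist_congr (h z hz) i hi.le]
  congr 1
  exact List.filter_congr (h z hz i hi)

/-! ### The oracle given by a list of queries with certificates -/

/-- The oracle given by a list of certified queries. -/
def orc (V : List Bool × List Bool → Bool) (E : List (List Bool × List Bool)) (q : List Bool) :
    Bool := E.any (fun e => decide (e.1 = q) && V e)

theorem orc_true {V : List Bool × List Bool → Bool} {E : List (List Bool × List Bool)}
    {q : List Bool} : orc V E q = true ↔ ∃ w, (q, w) ∈ E ∧ V (q, w) = true := by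
  unfold orc
  rw [List.any_eq_true]
  simp only [Bool.and_eq_true, decide_eq_true_eq]
  constructor
  · rintro ⟨⟨q', w⟩, h1, rfl, h2⟩
    exact ⟨w, h1, h2⟩
  · rintro ⟨w, h1, h2⟩
    exact ⟨_, h1, rfl, h2⟩

/-- All yes-queries of the rounds, with certificates. -/
def cert {β : Type} (Z : List β) (qf : β → List (List Bool) → List (List Bool))
    (o : List Bool → Bool) (R : ℕ) (wit : List Bool → List Bool) : List (List Bool × List Bool) :=
  (List.range R).flatMap (fun i => Z.flatMap (fun z =>
    ((qf z (hist (qf z) o i)).filter o).map (fun q => (q, wit q))))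

theorem mem_cert {β : Type} {Z : List β} {qf : β → List (List Bool) → List (List Bool)}
    {o : List Bool → Bool} {R : ℕ} {wit : List Bool → List Bool} {e : List Bool × List Bool} :
    e ∈ cert Z qf o R wit ↔ ∃ i < R, ∃ z ∈ Z, ∃ q ∈ qf z (hist (qf z) o i), o q = true ∧
      e = (q, wit q) := by
  unfold cert
  simp only [List.mem_flatMap, List.mem_range, List.mem_map, List.mem_filter]
  constructor
  · rintro ⟨i, hi, z, hz, q, ⟨h1, h2⟩, rfl⟩
    exact ⟨i, hi, z, hz, q, h1, h2, rfl⟩
  · rintro ⟨i, hi, z, hz, q, h1, h2, rfl⟩
    exact ⟨i, hi, z, hz, q, ⟨h1, h2⟩, rfl⟩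

theorem length_cert {β : Type} {Z : List β} {qf : β → List (List Bool) → List (List Bool)}
    {o : List Bool → Bool} {R : ℕ} {wit : List Bool → List Bool} {W : ℕ}
    (h : ∀ z H, (qf z H).length ≤ W) : (cert Z qf o R wit).length ≤ R * (Z.length * W) := by
  unfold cert
  rw [List.length_flatMap]
  refine (List.sum_le_card_nsmul _ (Z.length * W) ?_).trans ?_
  · intro m hm
    rw [List.mem_map] at hm
    obtain ⟨i, _, rfl⟩ := hm
    rw [List.length_flatMap]
    refine (List.sum_le_card_nsmul _ W ?_).trans ?_
    · intro m hm
      rw [List.mem_map] at hm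
      obtain ⟨z, _, rfl⟩ := hm
      rw [List.length_map]
      exact (List.length_filter_le _ _).trans (h _ _)
    · rw [List.length_map, smul_eq_mul]
  · rw [List.length_map, List.length_range, smul_eq_mul]

theorem orc_cert {β : Type} {Z : List β} {qf : β → List (List Bool) → List (List Bool)}
    {o : List Bool → Bool} {R : ℕ} {wit : List Bool → List Bool}
    {V : List Bool × List Bool → Bool} (hV : ∀ q w, V (q, w) = true → o q = true)
    (hwit : ∀ q, o q = true → V (q, wit q) = true) :
    ∀ z ∈ Z, ∀ i < R, ∀ q ∈ qf z (hist (qf z) o i), orc V (cert Z qf o R wit) q = o q := by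
  intro z hz i hi q hq
  rw [Bool.eq_iff_iff, orc_true]
  constructor
  · rintro ⟨w, _, h⟩
    exact hV _ _ h
  · intro h
    exact ⟨wit q, mem_cert.2 ⟨i, hi, z, hz, q, hq, h, rfl⟩, hwit q h⟩

theorem orc_le {V : List Bool × List Bool → Bool} {o : List Bool → Bool}
    (hV : ∀ q w, V (q, w) = true → o q = true) {E : List (List Bool × List Bool)} :
    ∀ q, orc V E q = true → o q = true := by
  intro q h
  rw [orc_true] at h
  obtain ⟨w, _, h⟩ := h
  exact hV _ _ h

/-- The profile is bounded. -/
theorem prof_le {β : Type} {Z : List β} {qf : β → List (List Bool) → List (List Bool)}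
    {o : List Bool → Bool} {R W : ℕ} (h : ∀ z H, (qf z H).length ≤ W) :
    ∀ m ∈ prof Z qf o R, m ≤ Z.length * W := by
  intro m hm
  unfold prof at hm
  rw [List.mem_map] at hm
  obtain ⟨i, _, rfl⟩ := hm
  refine (List.sum_le_card_nsmul _ W ?_).trans ?_
  · intro m hm
    rw [List.mem_map] at hm
    obtain ⟨z, _, rfl⟩ := hm
    exact (List.length_filter_le _ _).trans (h _ _)
  · rw [List.length_map, smul_eq_mul]

theorem length_prof {β : Type} {Z : List β} {qf : β → List (List Bool) → List (List Bool)}
    {o : List Bool → Bool} {R : ℕ} : (prof Z qf o R).length = R := by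
  unfold prof
  rw [List.length_map, List.length_range]

/-! ### Polynomial time -/

section PT

variable {α : Type} [TEnc α]

theorem sz_hist_le {qf : List (List Bool) → List (List Bool)} {o : List Bool → Bool} {W : ℕ}
    (h : ∀ H, (qf H).length ≤ W) : ∀ i, sz (hist qf o i) ≤ i * (4 * W + 2) + 1
  | 0 => by rw [hist_zero]; simp
  | i + 1 => by
    have ih := sz_hist_le (o := o) h i
    rw [hist_succ]
    have h1 := sz_append (hist qf o i) [(qf (hist qf o i)).map o]
    have h2 : sz ((qf (hist qf o i)).map o) ≤ 4 * W + 1 := by
      have h3 := sz_listBool_le ((qf (hist qf o i)).map o)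
      have h4 := h (hist qf o i)
      rw [List.length_map] at h3
      omega
    have h5 : sz [(qf (hist qf o i)).map o] ≤ 4 * W + 1 + 2 := by
      have h7 := sz_le_length_mul [(qf (hist qf o i)).map o] (4 * W + 1) (fun a ha => by
        rw [List.mem_singleton] at ha; rw [ha]; exact h2)
      simp only [List.length_cons, List.length_nil] at h7
      omega
    have h6 : (i + 1) * (4 * W + 2) = i * (4 * W + 2) + (4 * W + 2) := by ring
    omega

theorem poly_hist {qf : α → List (List Bool) → List (List Bool)} {o : α → List Bool → Bool}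
    {i : α → ℕ} {W : Polynomial ℕ} (hq : Poly (fun p : α × List (List Bool) => qf p.1 p.2))
    (ho : Poly (fun p : α × List Bool => o p.1 p.2)) (hi : UPoly i)
    (hW : ∀ a H, (qf a H).length ≤ W.eval (sz a)) :
    Poly (fun a => hist (qf a) (o a) (i a)) := by
  obtain ⟨r, hr⟩ := hi.range.sz_le
  unfold hist
  refine Poly.foldl (l := fun a => List.range (i a)) (s := fun _ => [])
    (F := fun a H _ => H ++ [(qf a H).map (o a)]) hi.range (NPC.Poly.const _) ?_
    (r * (4 * W + 2) + 1) ?_
  · have h1 : Poly (fun p : α × List (List Bool) × ℕ => qf p.1 p.2.1) :=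
      hq.comp (f := fun p : α × List (List Bool) × ℕ => (p.1, p.2.1)) (by fun_prop)
    have h2 : Poly (fun p : α × List (List Bool) × ℕ => (qf p.1 p.2.1).map (o p.1)) :=
      NPC.Poly.map h1 (ho.comp (f := fun q : (α × List (List Bool) × ℕ) × List Bool =>
        (q.1.1, q.2)) (by fun_prop))
    exact NPC.Poly.append (by fun_prop) (NPC.Poly.cons h2 (NPC.Poly.const _))
  · intro a k hk
    rw [List.length_range] at hk
    have h1 : (List.range (i a)).take k = List.range k := by
      rw [List.take_range, min_eq_left hk]
    rw [h1]
    have h2 := sz_hist_le (o := o a) (hW a) k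
    unfold hist at h2
    refine h2.trans ?_
    simp only [Polynomial.eval_add, Polynomial.eval_mul, Polynomial.eval_one,
      Polynomial.eval_ofNat]
    have h3 : k ≤ r.eval (sz a) := by
      have h4 := length_lt_sz (List.range (i a))
      rw [List.length_range] at h4
      have h5 := hr a
      omega
    have := Nat.mul_le_mul_right (4 * W.eval (sz a) + 2) h3
    omega

theorem poly_orc {V : List Bool × List Bool → Bool} (hV : Poly V)
    {E : α → List (List Bool × List Bool)} (hE : Poly E) {q : α → List Bool} (hq : Poly q) :
    Poly (fun a => orc V (E a) (q a)) := by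
  unfold orc
  refine NPC.Poly.any hE (NPC.Poly.and ?_ (hV.comp (NPC.Poly.snd NPC.Poly.id)))
  exact NPC.Poly.dec_eq (by fun_prop) (hq.comp (NPC.Poly.fst NPC.Poly.id))

theorem poly_prof {β : Type} [TEnc β] {Z : α → List β}
    {qf : α → β → List (List Bool) → List (List Bool)} {o : α → List Bool → Bool} {R : α → ℕ}
    {W : Polynomial ℕ} (hZ : Poly Z)
    (hq : Poly (fun p : α × β × List (List Bool) => qf p.1 p.2.1 p.2.2))
    (ho : Poly (fun p : α × List Bool => o p.1 p.2)) (hR : UPoly R)
    (hW : ∀ a z H, (qf a z H).length ≤ W.eval (sz a)) :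
    Poly (fun a => prof (Z a) (qf a) (o a) (R a)) := by
  have hR' := hR.range
  -- the index bounded by the number of rounds
  have h1 : UPoly (fun p : (α × ℕ) × β => min p.1.2 (R p.1.1)) := by
    have h2 : Poly (fun p : (α × ℕ) × β => (List.range (R p.1.1)).filter
        (fun j => decide (j < p.1.2))) :=
      NPC.Poly.filter (hR'.comp (NPC.Poly.fst (NPC.Poly.fst NPC.Poly.id)))
        (NPC.Poly.decide_lt (by fun_prop) (by fun_prop))
    have h3 : Poly (fun p : (α × ℕ) × β => ((List.range (R p.1.1)).filter
        (fun j => decide (j < p.1.2))).map (fun _ => ())) :=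
      NPC.Poly.map h2 (NPC.Poly.const _)
    refine h3.congr fun p => ?_
    rw [List.map_const']
    congr 1
    have h4 : ∀ (m n : ℕ), ((List.range n).filter (fun j => decide (j < m))).length = min m n := by
      intro m n
      induction n with
      | zero => simp
      | succ n ih =>
        rw [List.range_succ, List.filter_append, List.length_append, ih]
        by_cases hm : n < m
        · simp [hm]; omega
        · simp [hm]; omega
    exact h4 _ _
  have h5 : Poly (fun p : (α × ℕ) × β =>
      hist (qf p.1.1 p.2) (o p.1.1) (min p.1.2 (R p.1.1))) := by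
    refine poly_hist (qf := fun p : (α × ℕ) × β => qf p.1.1 p.2) (o := fun p => o p.1.1)
      (W := W) ?_ ?_ h1 ?_
    · exact hq.comp (f := fun p : ((α × ℕ) × β) × List (List Bool) => (p.1.1.1, p.1.2, p.2))
        (by fun_prop)
    · exact ho.comp (f := fun p : ((α × ℕ) × β) × List Bool => (p.1.1.1, p.2)) (by fun_prop)
    · intro p H
      refine (hW p.1.1 p.2 H).trans (eval_mono W ?_)
      obtain ⟨⟨a, i⟩, z⟩ := p
      simp only [sz_pair]
      omega
  have h6 : Poly (fun p : (α × ℕ) × β =>
      qf p.1.1 p.2 (hist (qf p.1.1 p.2) (o p.1.1) (min p.1.2 (R p.1.1)))) :=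
    hq.comp (f := fun p : (α × ℕ) × β => (p.1.1, p.2,
      hist (qf p.1.1 p.2) (o p.1.1) (min p.1.2 (R p.1.1))))
      (NPC.Poly.pair (by fun_prop) (NPC.Poly.pair (by fun_prop) h5))
  have h7 : Poly (fun a => (List.range (R a)).map (fun i => ((Z a).map (fun z =>
      ((qf a z (hist (qf a z) (o a) (min i (R a)))).filter (o a)).length)).sum)) := by
    refine NPC.Poly.map hR' (NPC.Poly.sum (NPC.Poly.map (hZ.comp (NPC.Poly.fst NPC.Poly.id)) ?_))
    refine NPC.Poly.length (NPC.Poly.filter h6 ?_)
    exact ho.comp (f := fun p : ((α × ℕ) × β) × List Bool => (p.1.1.1, p.2)) (by fun_prop)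
  refine h7.congr fun a => ?_
  unfold prof
  refine List.map_congr_left fun i hi => ?_
  rw [List.mem_range] at hi
  rw [min_eq_left hi.le]

end PT

end Pool.Agent.H75C.RD
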