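import Pool.Agent.H75C.RD.Hist
import Pool.Agent.H75C.NX.Lang

/-!
# Machines with rounds of parallel queries, parameters, the profile as a number
-/

namespace Pool.Agent.H75C.RD

open Pool.Agent.NPC Pool.Agent.H660R2.NX Pool.Agent.H75C.NX

attribute [local irreducible] unpair

/-- A machine with rounds: `Q` gives the queries of the next round, `D` the decision, `V` tests the
certificates of the oracle; `p` bounds the length of the queries, `P` that of the certificates, and
`2 ^ (k (n ^ c + 1))` is the number of queries in a round and the amount of padding. -/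
structure RM where
  Q : List Bool × List Bool × List (List Bool) × List Unit → List (List Bool)
  D : List Bool × List Bool × List (List Bool) × List Unit → Bool
  V : List Bool × List Bool → Bool
  p : Polynomial ℕ
  P : Polynomial ℕ
  k : ℕ

/-- The exponent of the padding. -/
def RM.ww (M : RM) (c n : ℕ) : ℕ := M.k * (n ^ c + 1)

/-- The queries of the next round. -/
def RM.qs (M : RM) (c : ℕ) (z : List Bool × List Bool) (H : List (List Bool)) : List (List Bool) :=
  ((M.Q (z.1, z.2, H, List.replicate (2 ^ M.ww c z.1.length) ())).take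
    (2 ^ M.ww c z.1.length)).filter (fun q => decide (q.length ≤ M.p.eval z.1.length))

/-- The oracle. -/
def RM.ora (M : RM) (q : List Bool) : Bool :=
  (allStr (M.P.eval q.length)).any (fun w => M.V (q, w))

/-- The decision. -/
def RM.dc (M : RM) (c : ℕ) (z : List Bool × List Bool) (H : List (List Bool)) : Bool :=
  M.D (z.1, z.2, H, List.replicate (2 ^ M.ww c z.1.length) ())

/-- The machine `M` decides `L` with the advice `a`, of length at most `n ^ c + c`, in `n ^ c + c`
rounds. -/
structure RM.Ok (M : RM) (c : ℕ) (L : Set (List Bool)) (a : ℕ → List Bool) : Prop where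
  hQ : Poly M.Q
  hD : Poly M.D
  hV : Poly M.V
  hl : ∀ q w, M.V (q, w) = true → w.length ≤ M.P.eval q.length
  adv : ∀ n, (a n).length ≤ n ^ c + c
  dec : ∀ x, x ∈ L ↔ M.dc c (x, a x.length)
    (hist (M.qs c (x, a x.length)) M.ora (x.length ^ c + c)) = true

/-- Some machine with rounds decides `L`. -/
def RBig (c : ℕ) (L : Set (List Bool)) : Prop := ∃ (M : RM) (a : ℕ → List Bool), M.Ok c L a

theorem RM.ora_of {M : RM} (hl : ∀ q w, M.V (q, w) = true → w.length ≤ M.P.eval q.length) :
    ∀ q w, M.V (q, w) = true → M.ora q = true := by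
  intro q w h
  unfold RM.ora
  rw [List.any_eq_true]
  exact ⟨w, mem_allStr.2 (hl q w h), h⟩

theorem length_qs (M : RM) (c : ℕ) (z : List Bool × List Bool) (H : List (List Bool)) :
    (M.qs c z H).length ≤ 2 ^ M.ww c z.1.length := by
  unfold RM.qs
  refine (List.length_filter_le _ _).trans ?_
  rw [List.length_take]
  exact min_le_left _ _

theorem length_of_mem_qs {M : RM} {c : ℕ} {z : List Bool × List Bool} {H : List (List Bool)}
    {q : List Bool} (h : q ∈ M.qs c z H) : q.length ≤ M.p.eval z.1.length := by
  unfold RM.qs at h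
  rw [List.mem_filter, decide_eq_true_eq] at h
  exact h.2

/-! ### The versions with padding -/

/-- The queries of the next round, with padding. -/
def RM.qsP (M : RM) (c : ℕ) (pad : List Unit) (z : List Bool × List Bool)
    (H : List (List Bool)) : List (List Bool) :=
  ((M.Q (z.1, z.2, H, pad.take (2 ^ M.ww c z.1.length))).take
    (min (2 ^ M.ww c z.1.length) pad.length)).filter
      (fun q => decide (q.length ≤ M.p.eval z.1.length))

/-- The oracle, with padding. -/
def RM.oraP (M : RM) (pad : List Unit) (q : List Bool) : Bool :=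
  (allB (M.P.eval q.length) pad).any (fun w => M.V (q, w))

/-- The decision, with padding. -/
def RM.dcP (M : RM) (c : ℕ) (pad : List Unit) (z : List Bool × List Bool)
    (H : List (List Bool)) : Bool :=
  M.D (z.1, z.2, H, pad.take (2 ^ M.ww c z.1.length))

theorem take_unit {pad : List Unit} {n : ℕ} (h : n ≤ pad.length) :
    pad.take n = List.replicate n () := by
  apply List.ext_getElem
  · simp [h]
  · intro i h1 h2; simp

theorem qsP_eq {M : RM} {c : ℕ} {pad : List Unit} {z : List Bool × List Bool}
    (h : 2 ^ M.ww c z.1.length ≤ pad.length) (H : List (List Bool)) :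
    M.qsP c pad z H = M.qs c z H := by
  unfold RM.qsP RM.qs
  rw [take_unit h, min_eq_left h]

theorem dcP_eq {M : RM} {c : ℕ} {pad : List Unit} {z : List Bool × List Bool}
    (h : 2 ^ M.ww c z.1.length ≤ pad.length) (H : List (List Bool)) :
    M.dcP c pad z H = M.dc c z H := by
  unfold RM.dcP RM.dc
  rw [take_unit h]

theorem oraP_eq {M : RM} {pad : List Unit} {q : List Bool}
    (h : 2 ^ M.P.eval q.length ≤ pad.length) : M.oraP pad q = M.ora q := by
  unfold RM.oraP RM.ora
  rw [allB_eq h]

theorem length_qsP (M : RM) (c : ℕ) (pad : List Unit) (z : List Bool × List Bool)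
    (H : List (List Bool)) : (M.qsP c pad z H).length ≤ pad.length := by
  unfold RM.qsP
  refine (List.length_filter_le _ _).trans ?_
  rw [List.length_take]
  exact (min_le_left _ _).trans (min_le_right _ _)

theorem prof_congr' {β : Type} {Z : List β} {qf qf' : β → List (List Bool) → List (List Bool)}
    {o o' : List Bool → Bool} {R : ℕ} (h' : ∀ z ∈ Z, ∀ H, qf' z H = qf z H)
    (h : ∀ z ∈ Z, ∀ i < R, ∀ q ∈ qf z (hist (qf z) o i), o' q = o q) :
    prof Z qf' o' R = prof Z qf o R := by
  rw [← prof_congr h]
  unfold prof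
  refine List.map_congr_left fun i _ => ?_
  congr 1
  refine List.map_congr_left fun z hz => ?_
  have : qf' z = qf z := funext (h' z hz)
  rw [this]

/-! ### Polynomial time -/

section PT

variable {α : Type} [TEnc α]

theorem upoly_ww (M : RM) (c : ℕ) {n : α → ℕ} (hn : UPoly n) : UPoly (fun a => M.ww c (n a)) :=
  upoly_of_eval hn (Polynomial.C M.k * (Polynomial.X ^ c + 1)) (fun n => by simp [RM.ww])

theorem poly_qsP {M : RM} (hQ : Poly M.Q) (c : ℕ) {pad : α → List Unit}
    {z : α → List Bool × List Bool} {H : α → List (List Bool)} (hpad : Poly pad) (hz : Poly z)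
    (hH : Poly H) : Poly (fun a => M.qsP c (pad a) (z a) (H a)) := by
  have h0 : UPoly (fun a => (z a).1.length) := UPoly.length (NPC.Poly.fst hz)
  have h1 : Poly (fun a => 2 ^ M.ww c (z a).1.length) := poly_pow2 (upoly_ww M c h0)
  have h2 : Poly (fun a => (pad a).take (2 ^ M.ww c (z a).1.length)) := poly_take hpad h1
  have h3 : Poly (fun a => M.Q ((z a).1, (z a).2, H a,
      (pad a).take (2 ^ M.ww c (z a).1.length))) :=
    hQ.comp (NPC.Poly.pair (NPC.Poly.fst hz) (NPC.Poly.pair (NPC.Poly.snd hz)
      (NPC.Poly.pair hH h2)))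
  have h4 : Poly (fun a => min (2 ^ M.ww c (z a).1.length) (pad a).length) :=
    Poly.min h1 (NPC.Poly.length hpad)
  have h5 : Poly (fun a => M.p.eval (z a).1.length) := (UPoly.eval h0 M.p).toPoly
  unfold RM.qsP
  refine NPC.Poly.filter (poly_take h3 h4) ?_
  exact NPC.Poly.decide_le (by fun_prop) (h5.comp (NPC.Poly.fst NPC.Poly.id))

theorem poly_oraP {M : RM} (hV : Poly M.V) {pad : α → List Unit} {q : α → List Bool}
    (hpad : Poly pad) (hq : Poly q) : Poly (fun a => M.oraP (pad a) (q a)) := by
  have h1 : Poly (fun a => allB (M.P.eval (q a).length) (pad a)) :=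
    poly_allB (UPoly.eval (UPoly.length hq) M.P) hpad
  unfold RM.oraP
  refine NPC.Poly.any h1 (hV.comp (NPC.Poly.pair (hq.comp (NPC.Poly.fst NPC.Poly.id))
    (NPC.Poly.snd NPC.Poly.id)))

theorem poly_dcP {M : RM} (hD : Poly M.D) (c : ℕ) {pad : α → List Unit}
    {z : α → List Bool × List Bool} {H : α → List (List Bool)} (hpad : Poly pad) (hz : Poly z)
    (hH : Poly H) : Poly (fun a => M.dcP c (pad a) (z a) (H a)) := by
  have h0 : UPoly (fun a => (z a).1.length) := UPoly.length (NPC.Poly.fst hz)
  have h1 : Poly (fun a => 2 ^ M.ww c (z a).1.length) := poly_pow2 (upoly_ww M c h0)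
  have h2 : Poly (fun a => (pad a).take (2 ^ M.ww c (z a).1.length)) := poly_take hpad h1
  unfold RM.dcP
  exact hD.comp (NPC.Poly.pair (NPC.Poly.fst hz) (NPC.Poly.pair (NPC.Poly.snd hz)
      (NPC.Poly.pair hH h2)))

/-- The profile is computable in polynomial time with padding. -/
theorem poly_profP {M : RM} (hQ : Poly M.Q) (c : ℕ) {pad : α → List Unit}
    {Z : α → List (List Bool × List Bool)} {o : α → List Bool → Bool} {R : α → ℕ}
    (hpad : Poly pad) (hZ : Poly Z) (ho : Poly (fun p : α × List Bool => o p.1 p.2))
    (hR : UPoly R) : Poly (fun a => prof (Z a) (M.qsP c (pad a)) (o a) (R a)) := by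
  obtain ⟨W, hW⟩ := hpad.sz_le
  refine poly_prof (qf := fun a => M.qsP c (pad a)) (W := W) hZ ?_ ho hR ?_
  · exact poly_qsP hQ c (pad := fun p : α × (List Bool × List Bool) × List (List Bool) => pad p.1)
      (z := fun p => p.2.1) (H := fun p => p.2.2) (hpad.comp (NPC.Poly.fst NPC.Poly.id))
      (by fun_prop) (by fun_prop)
  · intro a z H
    refine (length_qsP M c _ z H).trans ?_
    have := length_lt_sz (pad a)
    have := hW a
    omega

/-- The final history is computable in polynomial time with padding. -/
theorem poly_histP {M : RM} (hQ : Poly M.Q) (c : ℕ) {pad : α → List Unit}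
    {z : α → List Bool × List Bool} {o : α → List Bool → Bool} {R : α → ℕ}
    (hpad : Poly pad) (hz : Poly z) (ho : Poly (fun p : α × List Bool => o p.1 p.2))
    (hR : UPoly R) : Poly (fun a => hist (M.qsP c (pad a) (z a)) (o a) (R a)) := by
  obtain ⟨W, hW⟩ := hpad.sz_le
  refine poly_hist (qf := fun a => M.qsP c (pad a) (z a)) (W := W) ?_ ho hR ?_
  · exact poly_qsP hQ c (pad := fun p : α × List (List Bool) => pad p.1)
      (z := fun p => z p.1) (H := fun p => p.2) (hpad.comp (NPC.Poly.fst NPC.Poly.id))
      (hz.comp (NPC.Poly.fst NPC.Poly.id)) (by fun_prop)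
  · intro a H
    refine (length_qsP M c _ _ H).trans ?_
    have := length_lt_sz (pad a)
    have := hW a
    omega

end PT

/-! ### Lists of numbers as numbers -/

/-- The number that codes a list of numbers. -/
def tn (C : List ℕ) : ℕ := valB (bits C ++ [true])

/-- Decoding. -/
def dn (T : ℕ) : List ℕ :=
  (unbits (List ℕ) T.bits.reverse.tail.reverse).elim [] (fun C => C)

theorem valB_bits_true (l : List Bool) : (valB (l ++ [true])).bits = l ++ [true] := by
  induction l with
  | nil => simp
  | cons b l ih =>
    rw [List.cons_append, valB_cons]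
    have h1 : 0 < valB (l ++ [true]) := by
      rw [valB_append]
      simp
    rw [show (if b = true then 1 else 0) + 2 * valB (l ++ [true]) =
      Nat.bit b (valB (l ++ [true])) by cases b <;> simp [Nat.bit] <;> omega]
    rw [Nat.bits_append_bit _ _ (by intro h; omega), ih]

theorem dn_tn (C : List ℕ) : dn (tn C) = C := by
  unfold dn tn
  rw [valB_bits_true, List.reverse_append]
  simp only [List.reverse_cons, List.reverse_nil, List.nil_append, List.singleton_append,
    List.tail_cons, List.reverse_reverse]
  rw [unbits_bits]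
  rfl

theorem tn_lt (C : List ℕ) : tn C < 2 ^ (sz C + 1) := by
  unfold tn
  have := valB_lt (bits C ++ [true])
  rwa [List.length_append, List.length_singleton, bits_length] at this

theorem poly_bitsOf {α β : Type} [TEnc α] [TEnc β] {f : α → β} (hf : Poly f) :
    Poly (fun a => bits (f a)) := by
  have h : Poly (fun b : β => bits b) := by
    obtain ⟨c, p, h⟩ := PC.rawIn
    exact ⟨c, p, fun a => h (bits a)⟩
  exact h.comp hf

theorem poly_tn : Poly tn := by
  unfold tn
  exact NPC.Poly.valBits (NPC.Poly.append (poly_bitsOf NPC.Poly.id) (NPC.Poly.const _))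

theorem poly_dn : Poly dn := by
  have h0 : Poly (unbits (List ℕ)) := poly_unbits
  have h1 : Poly (fun T : ℕ => T.bits) := NPC.Poly.natBits NPC.Poly.id
  have h2 : Poly (fun T : ℕ => unbits (List ℕ) T.bits.reverse.tail.reverse) :=
    h0.comp (NPC.Poly.reverse (NPC.Poly.tail (NPC.Poly.reverse h1)))
  unfold dn
  exact Poly.optElim h2 (NPC.Poly.const _) (NPC.Poly.snd NPC.Poly.id)

end Pool.Agent.H75C.RD
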