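import Pool.Agent.H75C.RD.Mach

/-!
# Parameters and lists of instances, the language of the bits of the profile
-/

namespace Pool.Agent.H75C.RD

open Pool.Agent.NPC Pool.Agent.H660R2.NX Pool.Agent.H75C.NX

attribute [local irreducible] unpair
attribute [local fun_prop] poly_strsB poly_pow2 poly_take

/-- The length of the inputs. -/
def nn (c l : ℕ) : ℕ := l ^ (2 * c + 4)
/-- The length of the pairs. -/
def NN (c l : ℕ) : ℕ := 3 * nn c l + 1
/-- The length of the advice and the number of rounds. -/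
def KK (c l : ℕ) : ℕ := NN c l ^ c + c
/-- The number of inputs. -/
def ss (c l : ℕ) : ℕ := nn c l + KK c l + 2

open Polynomial in
/-- `nn` as a polynomial. -/
noncomputable def nnP (c : ℕ) : Polynomial ℕ := X ^ (2 * c + 4)
/-- `NN` as a polynomial. -/
noncomputable def NNP (c : ℕ) : Polynomial ℕ := 3 * nnP c + 1
/-- `KK` as a polynomial. -/
noncomputable def KKP (c : ℕ) : Polynomial ℕ := NNP c ^ c + Polynomial.C c
/-- `ss` as a polynomial. -/
noncomputable def ssP (c : ℕ) : Polynomial ℕ := nnP c + KKP c + 2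

theorem nnP_eval (c l : ℕ) : (nnP c).eval l = nn c l := by simp [nnP, nn]
theorem NNP_eval (c l : ℕ) : (NNP c).eval l = NN c l := by simp [NNP, NN, nnP_eval]
theorem KKP_eval (c l : ℕ) : (KKP c).eval l = KK c l := by simp [KKP, KK, NNP_eval]
theorem ssP_eval (c l : ℕ) : (ssP c).eval l = ss c l := by simp [ssP, ss, nnP_eval, KKP_eval]

theorem upoly_nn {α : Type} [TEnc α] {l : α → ℕ} (hl : UPoly l) (c : ℕ) :
    UPoly (fun a => nn c (l a)) := upoly_of_eval hl (nnP c) (nnP_eval c)
theorem upoly_NN {α : Type} [TEnc α] {l : α → ℕ} (hl : UPoly l) (c : ℕ) :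
    UPoly (fun a => NN c (l a)) := upoly_of_eval hl (NNP c) (NNP_eval c)
theorem upoly_KK {α : Type} [TEnc α] {l : α → ℕ} (hl : UPoly l) (c : ℕ) :
    UPoly (fun a => KK c (l a)) := upoly_of_eval hl (KKP c) (KKP_eval c)
theorem upoly_ss {α : Type} [TEnc α] {l : α → ℕ} (hl : UPoly l) (c : ℕ) :
    UPoly (fun a => ss c (l a)) := upoly_of_eval hl (ssP c) (ssP_eval c)

/-! ### The lists -/

/-- The inputs. -/
def XL (c l : ℕ) : List (List Bool) := (strs (nn c l)).take (ss c l)
/-- Pairs of a string of length `nn` and an advice string. -/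
def UB (c l : ℕ) : List (List Bool × List Bool) := (strs (nn c l)) ×ˢ (allStr (KK c l))
/-- All instances. -/
def ZL (c l : ℕ) : List (List Bool × List Bool) := ZZ (UB c l) (XL c l)
/-- The same with padding. -/
def XP (c l : ℕ) (pad : List Unit) : List (List Bool) := (strsB (nn c l) pad).take (ss c l)
/-- The same with padding. -/
def UP (c l : ℕ) (pad : List Unit) : List (List Bool × List Bool) :=
  (strsB (nn c l) pad) ×ˢ (allB (KK c l) pad)

theorem XP_eq {c l : ℕ} {pad : List Unit} (h : 2 ^ nn c l ≤ pad.length) : XP c l pad = XL c l := by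
  unfold XP XL; rw [strsB_eq h]

theorem UP_eq {c l : ℕ} {pad : List Unit} (h : 2 ^ nn c l ≤ pad.length)
    (h' : 2 ^ KK c l ≤ pad.length) : UP c l pad = UB c l := by
  unfold UP UB; rw [strsB_eq h, allB_eq h']

theorem poly_XP {α : Type} [TEnc α] {l : α → ℕ} {pad : α → List Unit} (hl : UPoly l)
    (hpad : Poly pad) (c : ℕ) : Poly (fun a => XP c (l a) (pad a)) :=
  poly_take (poly_strsB (upoly_nn hl c) hpad) (upoly_ss hl c).toPoly

theorem poly_UP {α : Type} [TEnc α] {l : α → ℕ} {pad : α → List Unit} (hl : UPoly l)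
    (hpad : Poly pad) (c : ℕ) : Poly (fun a => UP c (l a) (pad a)) :=
  R671.poly_product (poly_strsB (upoly_nn hl c) hpad) (poly_allB (upoly_KK hl c) hpad)

theorem mem_XL {c l : ℕ} {x : List Bool} (h : x ∈ XL c l) : x.length = nn c l :=
  mem_strs.1 (List.mem_of_mem_take h)

theorem mem_UB {c l : ℕ} {u : List Bool × List Bool} :
    u ∈ UB c l ↔ u.1.length = nn c l ∧ u.2.length ≤ KK c l := by
  unfold UB
  obtain ⟨u, b⟩ := u
  change (u, b) ∈ List.product _ _ ↔ _
  rw [List.pair_mem_product, mem_strs, mem_allStr]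

theorem mem_ZL {c l : ℕ} {z : List Bool × List Bool} :
    z ∈ ZL c l ↔ ∃ u ∈ UB c l, ∃ x ∈ XL c l, z = (pairBits u.1 x, u.2) := by
  unfold ZL ZZ
  rw [List.mem_map]
  constructor
  · rintro ⟨⟨u, x⟩, h, rfl⟩
    change (u, x) ∈ List.product _ _ at h
    rw [List.pair_mem_product] at h
    exact ⟨u, h.1, x, h.2, rfl⟩
  · rintro ⟨u, hu, x, hx, rfl⟩
    exact ⟨(u, x), List.pair_mem_product.2 ⟨hu, hx⟩, rfl⟩

theorem length_of_mem_ZL {c l : ℕ} {z : List Bool × List Bool} (h : z ∈ ZL c l) :
    z.1.length = NN c l := by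
  obtain ⟨u, hu, x, hx, rfl⟩ := mem_ZL.1 h
  rw [mem_UB] at hu
  simp only
  rw [length_pairBits, hu.1, mem_XL hx]
  unfold NN
  ring

theorem length_UB (c l : ℕ) : (UB c l).length < 2 ^ (nn c l + KK c l + 1) := by
  unfold UB
  rw [List.length_product, length_strs]
  have h := length_allStr (KK c l)
  calc 2 ^ nn c l * (allStr (KK c l)).length < 2 ^ nn c l * 2 ^ (KK c l + 1) :=
        Nat.mul_lt_mul_of_pos_left (by omega) (by positivity)
    _ = 2 ^ (nn c l + KK c l + 1) := by rw [← pow_add, Nat.add_assoc]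

theorem length_ZL_le (c l : ℕ) : (ZL c l).length ≤ 2 ^ (nn c l + KK c l + 1) * ss c l := by
  unfold ZL ZZ
  rw [List.length_map, List.length_product]
  refine Nat.mul_le_mul (length_UB c l).le ?_
  unfold XL
  rw [List.length_take]
  exact min_le_left _ _

/-! ### The language of the bits of the profile -/

/-- The profile of the machine `M`. -/
def cs (M : RM) (c l : ℕ) : List ℕ := prof (ZL c l) (M.qs c) M.ora (KK c l)

/-- The bits of the profile. -/
def Bset (M : RM) (c : ℕ) : Set (List Bool) :=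
  {z | (z, true) ∈ (strs z.length).zip (tn (cs M c z.length)).bits}

/-- The profile computed with padding. -/
def csP (M : RM) (c l : ℕ) (pad : List Unit) : List ℕ :=
  prof (ZZ (UP c l pad) (XP c l pad)) (M.qsP c pad) (M.oraP pad) (KK c l)

theorem csP_eq {M : RM} {c l : ℕ} {pad : List Unit}
    (h1 : 2 ^ nn c l ≤ pad.length) (h2 : 2 ^ KK c l ≤ pad.length)
    (h3 : 2 ^ M.ww c (NN c l) ≤ pad.length)
    (h4 : 2 ^ M.P.eval (M.p.eval (NN c l)) ≤ pad.length) : csP M c l pad = cs M c l := by
  unfold csP cs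
  rw [UP_eq h1 h2, XP_eq h1]
  refine prof_congr' (Z := ZL c l) ?_ ?_
  · intro z hz H
    exact qsP_eq (by rw [length_of_mem_ZL hz]; exact h3) H
  · intro z hz i _ q hq
    apply oraP_eq
    have h5 := length_of_mem_qs hq
    rw [length_of_mem_ZL hz] at h5
    exact (Nat.pow_le_pow_right (by norm_num) (eval_mono M.P h5)).trans h4

theorem poly_csP {α : Type} [TEnc α] {M : RM} (hQ : Poly M.Q) (hV : Poly M.V) {l : α → ℕ}
    {pad : α → List Unit} (hl : UPoly l) (hpad : Poly pad) (c : ℕ) :
    Poly (fun a => csP M c (l a) (pad a)) := by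
  have h1 := poly_XP hl hpad c
  have h2 := poly_UP hl hpad c
  unfold csP
  exact poly_profP hQ c hpad (poly_ZZ h2 h1)
    (poly_oraP hV (hpad.comp (NPC.Poly.fst NPC.Poly.id)) (NPC.Poly.snd NPC.Poly.id))
    (upoly_KK hl c)

/-- The exponent of the padding needed for the bits of the profile. -/
noncomputable def RBP (M : RM) (c : ℕ) : Polynomial ℕ :=
  Polynomial.X + nnP c + KKP c + Polynomial.C M.k * (NNP c ^ c + 1) + (M.P.comp M.p).comp (NNP c)

theorem RBP_eval (M : RM) (c l : ℕ) :
    (RBP M c).eval l = l + nn c l + KK c l + M.ww c (NN c l) + M.P.eval (M.p.eval (NN c l)) := by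
  simp [RBP, nnP_eval, KKP_eval, NNP_eval, Polynomial.eval_comp, RM.ww]

/-- The verifier for the bits of the profile: the certificate is the padding. -/
noncomputable def VB (M : RM) (c : ℕ) (v : List Bool) : Bool :=
  decide (2 ^ (RBP M c).eval (unpair v).1.length ≤ ((unpair v).2.map (fun _ => ())).length) &&
  decide (((unpair v).1, true) ∈ (strsB (unpair v).1.length ((unpair v).2.map (fun _ => ()))).zip
    (tn (csP M c (unpair v).1.length ((unpair v).2.map (fun _ => ())))).bits)

theorem poly_VB {M : RM} (hQ : Poly M.Q) (hV : Poly M.V) (c : ℕ) : Poly (VB M c) := by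
  have h0 : Poly (fun v : List Bool => (unpair v).1) := by fun_prop
  have h1 : UPoly (fun v : List Bool => (unpair v).1.length) := UPoly.length h0
  have h2 : Poly (fun v : List Bool => (unpair v).2.map (fun _ => ())) := by fun_prop
  have h3 : Poly (fun v : List Bool => 2 ^ (RBP M c).eval (unpair v).1.length) :=
    poly_pow2 (UPoly.eval h1 _)
  have h4 := poly_strsB h1 h2
  have h5 := NPC.Poly.natBits (poly_tn.comp (poly_csP hQ hV h1 h2 c))
  unfold VB
  refine NPC.Poly.and (NPC.Poly.decide_le h3 (NPC.Poly.length h2)) ?_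
  exact NPC.Poly.dec_mem (NPC.Poly.pair h0 (NPC.Poly.const true)) (NPC.Poly.zip h4 h5)

theorem inNEXP_Bset {M : RM} (hQ : Poly M.Q) (hV : Poly M.V) (c : ℕ) : InNEXP (Bset M c) := by
  refine ⟨fun v => [VB M c v], RBP M c, polyTime_of_poly (poly_VB hQ hV c), fun z => ?_⟩
  have key : ∀ pad : List Unit, 2 ^ (RBP M c).eval z.length ≤ pad.length →
      (strsB z.length pad).zip (tn (csP M c z.length pad)).bits =
        (strs z.length).zip (tn (cs M c z.length)).bits := by
    intro pad hp
    rw [RBP_eval] at hp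
    have hm : ∀ {k : ℕ}, k ≤ z.length + nn c z.length + KK c z.length +
        M.ww c (NN c z.length) + M.P.eval (M.p.eval (NN c z.length)) →
        2 ^ k ≤ pad.length := fun hk => (Nat.pow_le_pow_right (by norm_num) hk).trans hp
    rw [strsB_eq (hm (by omega)), csP_eq (hm (by omega)) (hm (by omega)) (hm (by omega))
      (hm (by omega))]
  constructor
  · intro hz
    refine ⟨List.replicate (2 ^ (RBP M c).eval z.length) false, by simp, ?_⟩
    rw [List.cons.injEq]
    refine ⟨?_, rfl⟩
    unfold VB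
    rw [unpair_pairBits]
    simp only [List.map_replicate, List.length_replicate, le_refl, decide_true, Bool.true_and]
    rw [decide_eq_true_eq, key _ (by simp)]
    exact hz
  · rintro ⟨w, _, hw⟩
    rw [List.cons.injEq] at hw
    have hw := hw.1
    unfold VB at hw
    rw [unpair_pairBits, Bool.and_eq_true, decide_eq_true_eq, decide_eq_true_eq] at hw
    rw [key _ hw.1] at hw
    exact hw.2

end Pool.Agent.H75C.RD
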