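import Pool.Agent.H75C.RD.Param

/-!
# The verifier for the diagonal language
-/

namespace Pool.Agent.H75C.RD

open Pool.Agent.NPC Pool.Agent.H660R2.NX Pool.Agent.H75C.NX

attribute [local irreducible] unpair

/-! ### The diagonal string -/

/-- The final decision on the instance `z`. -/
def fin (dcf : List Bool × List Bool → List (List Bool) → Bool)
    (qf : List Bool × List Bool → List (List Bool) → List (List Bool)) (o : List Bool → Bool)
    (R : ℕ) (z : List Bool × List Bool) : Bool := dcf z (hist (qf z) o R)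

/-- The values of the pair `ub`. -/
def pat (dcf : List Bool × List Bool → List (List Bool) → Bool)
    (qf : List Bool × List Bool → List (List Bool) → List (List Bool)) (o : List Bool → Bool)
    (R : ℕ) (Xs : List (List Bool)) (ub : List Bool × List Bool) : List Bool :=
  Xs.map (fun x => fin dcf qf o R (pairBits ub.1 x, ub.2))

/-- The strings of values of the pairs. -/
noncomputable def patsT (M : RM) (c l : ℕ) : List (List Bool) :=
  (UB c l).map (pat (M.dc c) (M.qs c) M.ora (KK c l) (XL c l))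

/-- The diagonal string. -/
noncomputable def dgT (M : RM) (c l : ℕ) : List Bool := dg (strs (ss c l)) (patsT M c l)

theorem length_patsT (M : RM) (c l : ℕ) : (patsT M c l).length < 2 ^ ss c l := by
  unfold patsT
  rw [List.length_map]
  refine (length_UB c l).trans_le ?_
  exact Nat.pow_le_pow_right (by norm_num) (by unfold ss; omega)

theorem dgT_spec (M : RM) (c l : ℕ) : (dgT M c l).length = ss c l ∧ dgT M c l ∉ patsT M c l := by
  unfold dgT dg
  have hne : (strs (ss c l)).filter (fun v => decide (v ∉ patsT M c l)) ≠ [] := by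
    intro h
    rw [List.filter_eq_nil_iff] at h
    have h1 : (strs (ss c l)).toFinset ⊆ (patsT M c l).toFinset := by
      intro v hv
      rw [List.mem_toFinset] at hv ⊢
      have := h v hv
      simpa using this
    have h2 := Finset.card_le_card h1
    rw [List.toFinset_card_of_nodup (nodup_strs _), length_strs] at h2
    have h3 := List.toFinset_card_le (patsT M c l)
    have h4 := length_patsT M c l
    omega
  generalize hF : (strs (ss c l)).filter (fun v => decide (v ∉ patsT M c l)) = F at hne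
  cases F with
  | nil => exact absurd rfl hne
  | cons v F =>
    have hv : v ∈ (strs (ss c l)).filter (fun v => decide (v ∉ patsT M c l)) := by
      rw [hF]; exact List.mem_cons_self
    rw [List.mem_filter, decide_eq_true_eq, mem_strs] at hv
    simpa using hv

/-! ### The two tests -/

/-- The test of the second list of certified queries. -/
def core2 (M : RM) (c : ℕ) (pad : List Unit) (R : ℕ) (Xs Vs : List (List Bool))
    (UBl : List (List Bool × List Bool)) (C : List ℕ) (x : List Bool)
    (E : List (List Bool × List Bool)) : Bool :=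
  decide (prof (ZZ UBl Xs) (M.qsP c pad) (orc M.V E) R = C) &&
    decide ((x, true) ∈ Xs.zip (dg Vs (UBl.map (pat (M.dcP c pad) (M.qsP c pad) (orc M.V E) R Xs))))

/-- The test of the first list of certified queries. -/
def core1 (M : RM) (c : ℕ) (pad : List Unit) (R : ℕ) (Zs : List (List Bool)) (a : List Bool)
    (C : List ℕ) (E : List (List Bool × List Bool)) : Bool :=
  decide (prof (Zs.map (fun z => (z, a))) (M.qsP c pad) (orc M.V E) R = C)

/-- The number whose bits are decided. -/
def num (M : RM) (c : ℕ) (pad : List Unit) (R : ℕ) (Zs : List (List Bool)) (a : List Bool)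
    (E : List (List Bool × List Bool)) : ℕ :=
  valB (Zs.map (fun z => fin (M.dcP c pad) (M.qsP c pad) (orc M.V E) R (z, a)))

theorem fin_eq {M : RM} {c : ℕ} {pad : List Unit} {o : List Bool → Bool} {R : ℕ}
    {z : List Bool × List Bool} (h : 2 ^ M.ww c z.1.length ≤ pad.length) :
    fin (M.dcP c pad) (M.qsP c pad) o R z = fin (M.dc c) (M.qs c) o R z := by
  unfold fin
  have h1 : M.qsP c pad z = M.qs c z := funext (qsP_eq h)
  rw [h1, dcP_eq h]

theorem prof_qsP {M : RM} {c n : ℕ} {pad : List Unit} {o : List Bool → Bool} {R : ℕ}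
    {Z : List (List Bool × List Bool)} (hZ : ∀ z ∈ Z, z.1.length = n)
    (h : 2 ^ M.ww c n ≤ pad.length) : prof Z (M.qsP c pad) o R = prof Z (M.qs c) o R :=
  prof_congr' (fun z hz H => qsP_eq (by rw [hZ z hz]; exact h) H) (fun _ _ _ _ _ _ => rfl)

theorem pats_eq {M : RM} {c l : ℕ} {pad : List Unit} {o : List Bool → Bool}
    (hp : 2 ^ M.ww c (NN c l) ≤ pad.length)
    (h : ∀ z ∈ ZL c l, hist (M.qs c z) o (KK c l) = hist (M.qs c z) M.ora (KK c l)) :
    (UB c l).map (pat (M.dcP c pad) (M.qsP c pad) o (KK c l) (XL c l)) = patsT M c l := by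
  unfold patsT
  refine List.map_congr_left fun ub hub => ?_
  unfold pat
  refine List.map_congr_left fun x hx => ?_
  have hz : (pairBits ub.1 x, ub.2) ∈ ZL c l := mem_ZL.2 ⟨ub, hub, x, hx, rfl⟩
  rw [fin_eq (by rw [length_of_mem_ZL hz]; exact hp)]
  unfold fin
  rw [h _ hz]

variable {M M1 : RM} {c l : ℕ} {L : Set (List Bool)} {a a1 : ℕ → List Bool} {pad : List Unit}

theorem core2_sound (hM : M.Ok c L a) (hp : 2 ^ M.ww c (NN c l) ≤ pad.length) {x : List Bool}
    {E : List (List Bool × List Bool)}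
    (h : core2 M c pad (KK c l) (XL c l) (strs (ss c l)) (UB c l) (cs M c l) x E = true) :
    (x, true) ∈ (XL c l).zip (dgT M c l) := by
  unfold core2 at h
  rw [Bool.and_eq_true, decide_eq_true_eq, decide_eq_true_eq] at h
  obtain ⟨h1, h2⟩ := h
  have h3 : prof (ZL c l) (M.qs c) (orc M.V E) (KK c l) = prof (ZL c l) (M.qs c) M.ora (KK c l) := by
    rw [← prof_qsP (pad := pad) (fun z hz => length_of_mem_ZL hz) hp]
    exact h1
  have h4 := hist_eq_of_prof (orc_le (RM.ora_of hM.hl)) h3 (KK c l) le_rfl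
  rw [pats_eq hp h4] at h2
  exact h2

/-- A certificate for every element of the oracle. -/
theorem exists_wit (hM : M.Ok c L a) : ∃ wit : List Bool → List Bool,
    (∀ q, M.ora q = true → M.V (q, wit q) = true) ∧ ∀ q, (wit q).length ≤ M.P.eval q.length := by
  classical
  have h : ∀ q, ∃ w : List Bool, (M.ora q = true → M.V (q, w) = true) ∧
      w.length ≤ M.P.eval q.length := by
    intro q
    by_cases hq : M.ora q = true
    · unfold RM.ora at hq
      rw [List.any_eq_true] at hq
      obtain ⟨w, hw, hw'⟩ := hq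
      exact ⟨w, fun _ => hw', mem_allStr.1 hw⟩
    · exact ⟨[], fun h => absurd h hq, by simp⟩
  choose wit h1 h2 using h
  exact ⟨wit, h1, h2⟩

theorem core2_complete (hM : M.Ok c L a) (hp : 2 ^ M.ww c (NN c l) ≤ pad.length) {x : List Bool}
    (hx : (x, true) ∈ (XL c l).zip (dgT M c l)) :
    ∃ E : List (List Bool × List Bool),
      core2 M c pad (KK c l) (XL c l) (strs (ss c l)) (UB c l) (cs M c l) x E = true ∧
      (∀ e ∈ E, e.1.length ≤ M.p.eval (NN c l) ∧ e.2.length ≤ M.P.eval (M.p.eval (NN c l))) ∧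
      E.length ≤ KK c l * ((ZL c l).length * 2 ^ M.ww c (NN c l)) := by
  obtain ⟨wit, hw1, hw2⟩ := exists_wit hM
  -- the queries of the instances with the right length
  set E := cert (ZL c l) (M.qs c) M.ora (KK c l) wit with hE
  have h1 := orc_cert (Z := ZL c l) (qf := M.qs c) (R := KK c l) (RM.ora_of hM.hl) hw1
  refine ⟨E, ?_, ?_, ?_⟩
  · unfold core2
    rw [Bool.and_eq_true, decide_eq_true_eq, decide_eq_true_eq]
    constructor
    · have h2 := prof_congr h1
      have h3 : prof (ZL c l) (M.qsP c pad) (orc M.V E) (KK c l) =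
          prof (ZL c l) (M.qs c) (orc M.V E) (KK c l) :=
        prof_qsP (fun z hz => length_of_mem_ZL hz) hp
      exact h3.trans h2
    · have h4 : ∀ z ∈ ZL c l, hist (M.qs c z) (orc M.V E) (KK c l) =
          hist (M.qs c z) M.ora (KK c l) := fun z hz => hist_congr (h1 z hz) (KK c l) le_rfl
      rw [pats_eq hp h4]
      exact hx
  · intro e he
    obtain ⟨i, _, z, hz, q, hq, _, rfl⟩ := mem_cert.1 he
    have h5 := length_of_mem_qs hq
    rw [length_of_mem_ZL hz] at h5
    exact ⟨h5, (hw2 q).trans (eval_mono _ h5)⟩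
  · -- the number of the certified queries
    rw [hE]
    unfold cert
    rw [List.length_flatMap]
    refine (List.sum_le_card_nsmul _ ((ZL c l).length * 2 ^ M.ww c (NN c l)) ?_).trans ?_
    · intro m hm
      rw [List.mem_map] at hm
      obtain ⟨i, _, rfl⟩ := hm
      rw [List.length_flatMap]
      refine (List.sum_le_card_nsmul _ (2 ^ M.ww c (NN c l)) ?_).trans ?_
      · intro m hm
        rw [List.mem_map] at hm
        obtain ⟨z, hz, rfl⟩ := hm
        rw [List.length_map]
        refine (List.length_filter_le _ _).trans ((length_qs _ _ _ _).trans ?_)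
        rw [length_of_mem_ZL hz]
      · rw [List.length_map, smul_eq_mul]
    · rw [List.length_map, List.length_range, smul_eq_mul]

/-! ### The first part -/

/-- The instances of the first part. -/
def Z1 (a : List Bool) (l : ℕ) : List (List Bool × List Bool) := (strs l).map (fun z => (z, a))

theorem mem_Z1 {a : List Bool} {l : ℕ} {z : List Bool × List Bool} :
    z ∈ Z1 a l ↔ z.1.length = l ∧ z.2 = a := by
  unfold Z1
  rw [List.mem_map]
  constructor
  · rintro ⟨y, hy, rfl⟩
    exact ⟨mem_strs.1 hy, rfl⟩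
  · rintro ⟨h1, rfl⟩
    exact ⟨z.1, mem_strs.2 h1, rfl⟩

/-- The profile of the first part. -/
def tau (M : RM) (c : ℕ) (a : ℕ → List Bool) (l : ℕ) : List ℕ :=
  prof (Z1 (a l) l) (M.qs c) M.ora (l ^ c + c)

theorem core1_sound (hM : M1.Ok c (Bset M c) a) (hp : 2 ^ M1.ww c l ≤ pad.length)
    (hT : tn (cs M c l) < 2 ^ (2 ^ l)) {E : List (List Bool × List Bool)}
    (h : core1 M1 c pad (l ^ c + c) (strs l) (a l) (tau M1 c a l) E = true) :
    num M1 c pad (l ^ c + c) (strs l) (a l) E = tn (cs M c l) := by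
  unfold core1 at h
  rw [decide_eq_true_eq] at h
  have hZ : ∀ z ∈ Z1 (a l) l, z.1.length = l := fun z hz => (mem_Z1.1 hz).1
  have h3 : prof (Z1 (a l) l) (M1.qs c) (orc M1.V E) (l ^ c + c) =
      prof (Z1 (a l) l) (M1.qs c) M1.ora (l ^ c + c) := by
    rw [← prof_qsP (pad := pad) hZ hp]
    exact h
  have h4 := hist_eq_of_prof (orc_le (RM.ora_of hM.hl)) h3 (l ^ c + c) le_rfl
  unfold num
  rw [← length_strs l] at hT
  have h2 : (strs l).map (fun z => fin (M1.dcP c pad) (M1.qsP c pad) (orc M1.V E) (l ^ c + c)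
      (z, a l)) =
      (strs l).map (fun z => decide ((z, true) ∈ (strs l).zip (tn (cs M c l)).bits)) := by
    refine List.map_congr_left fun z hz => ?_
    have hz' := mem_strs.1 hz
    rw [fin_eq (by simp only; rw [hz']; exact hp)]
    unfold fin
    rw [h4 (z, a l) (mem_Z1.2 ⟨hz', rfl⟩)]
    have h5 := hM.dec z
    rw [hz'] at h5
    rw [Bool.eq_iff_iff, ← h5, decide_eq_true_eq]
    unfold Bset
    rw [Set.mem_ofPred_eq, hz']
  rw [h2]
  exact valB_zip (nodup_strs l) hT

theorem core1_complete (hM : M1.Ok c L a) (hp : 2 ^ M1.ww c l ≤ pad.length) :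
    ∃ E : List (List Bool × List Bool),
      core1 M1 c pad (l ^ c + c) (strs l) (a l) (tau M1 c a l) E = true ∧
      (∀ e ∈ E, e.1.length ≤ M1.p.eval l ∧ e.2.length ≤ M1.P.eval (M1.p.eval l)) ∧
      E.length ≤ (l ^ c + c) * (2 ^ l * 2 ^ M1.ww c l) := by
  obtain ⟨wit, hw1, hw2⟩ := exists_wit hM
  have hZ : ∀ z ∈ Z1 (a l) l, z.1.length = l := fun z hz => (mem_Z1.1 hz).1
  have h1 := orc_cert (Z := Z1 (a l) l) (qf := M1.qs c) (R := l ^ c + c) (RM.ora_of hM.hl) hw1
  refine ⟨cert (Z1 (a l) l) (M1.qs c) M1.ora (l ^ c + c) wit, ?_, ?_, ?_⟩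
  · unfold core1
    rw [decide_eq_true_eq]
    exact (prof_qsP hZ hp).trans (prof_congr h1)
  · intro e he
    obtain ⟨i, _, z, hz, q, hq, _, rfl⟩ := mem_cert.1 he
    have h5 := length_of_mem_qs hq
    rw [hZ z hz] at h5
    exact ⟨h5, (hw2 q).trans (eval_mono _ h5)⟩
  · unfold cert
    rw [List.length_flatMap]
    refine (List.sum_le_card_nsmul _ (2 ^ l * 2 ^ M1.ww c l) ?_).trans ?_
    · intro m hm
      rw [List.mem_map] at hm
      obtain ⟨i, _, rfl⟩ := hm
      rw [List.length_flatMap]
      refine (List.sum_le_card_nsmul _ (2 ^ M1.ww c l) ?_).trans ?_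
      · intro m hm
        rw [List.mem_map] at hm
        obtain ⟨z, hz, rfl⟩ := hm
        rw [List.length_map]
        refine (List.length_filter_le _ _).trans ((length_qs _ _ _ _).trans ?_)
        rw [hZ z hz]
      · rw [List.length_map, smul_eq_mul]
        unfold Z1
        rw [List.length_map, length_strs]
    · rw [List.length_map, List.length_range, smul_eq_mul]

/-! ### The verifier -/

/-- The exponent of the padding. -/
noncomputable def RRP (M M1 : RM) (c : ℕ) : Polynomial ℕ :=
  Polynomial.X + nnP c + KKP c + ssP c + Polynomial.C M1.k * (Polynomial.X ^ c + 1) +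
    Polynomial.C M.k * (NNP c ^ c + 1)

theorem RRP_eval (M M1 : RM) (c l : ℕ) : (RRP M M1 c).eval l =
    l + nn c l + KK c l + ss c l + M1.ww c l + M.ww c (NN c l) := by
  simp [RRP, nnP_eval, KKP_eval, ssP_eval, NNP_eval, RM.ww]

/-- The verifier. -/
noncomputable def ver (M M1 : RM) (c : ℕ) (el : List Unit) (a : List Bool) (C : List ℕ)
    (x : List Bool) (E1 E2 : List (List Bool × List Bool)) (pad : List Unit) : Bool :=
  decide (2 ^ (RRP M M1 c).eval el.length ≤ pad.length) &&
  (core1 M1 c pad (el.length ^ c + c) (strsB el.length pad) a C E1 &&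
   core2 M c pad (KK c el.length) (XP c el.length pad) (strsB (ss c el.length) pad)
    (UP c el.length pad) (dn (num M1 c pad (el.length ^ c + c) (strsB el.length pad) a E1)) x E2)

theorem ver_eq {el : List Unit} {a : List Bool} {C : List ℕ} {x : List Bool}
    {E1 E2 : List (List Bool × List Bool)}
    (h : 2 ^ (RRP M M1 c).eval el.length ≤ pad.length) :
    ver M M1 c el a C x E1 E2 pad =
      (core1 M1 c pad (el.length ^ c + c) (strs el.length) a C E1 &&
        core2 M c pad (KK c el.length) (XL c el.length) (strs (ss c el.length))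
          (UB c el.length) (dn (num M1 c pad (el.length ^ c + c) (strs el.length) a E1)) x E2) := by
  unfold ver
  have hp := h
  rw [RRP_eval] at hp
  have hm : ∀ {k : ℕ}, k ≤ el.length + nn c el.length + KK c el.length + ss c el.length +
      M1.ww c el.length + M.ww c (NN c el.length) →
      2 ^ k ≤ pad.length := fun hk => (Nat.pow_le_pow_right (by norm_num) hk).trans hp
  rw [decide_eq_true h, Bool.true_and, strsB_eq (hm (by omega)), strsB_eq (hm (by omega)),
    XP_eq (hm (by omega)), UP_eq (hm (by omega)) (hm (by omega))]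

/-! ### Polynomial time -/

section PT

variable {α : Type} [TEnc α]

theorem poly_finP (hQ : Poly M.Q) (hD : Poly M.D) (hV : Poly M.V) (c : ℕ) {pad : α → List Unit}
    {z : α → List Bool × List Bool} {E : α → List (List Bool × List Bool)} {R : α → ℕ}
    (hpad : Poly pad) (hz : Poly z) (hE : Poly E) (hR : UPoly R) :
    Poly (fun a => fin (M.dcP c (pad a)) (M.qsP c (pad a)) (orc M.V (E a)) (R a) (z a)) := by
  unfold fin
  refine poly_dcP hD c hpad hz (poly_histP hQ c hpad hz (o := fun a => orc M.V (E a)) ?_ hR)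
  exact poly_orc hV (hE.comp (NPC.Poly.fst NPC.Poly.id)) (NPC.Poly.snd NPC.Poly.id)

theorem poly_core1 (hQ : Poly M.Q) (hV : Poly M.V) (c : ℕ) {pad : α → List Unit} {R : α → ℕ}
    {Zs : α → List (List Bool)} {b : α → List Bool} {C : α → List ℕ}
    {E : α → List (List Bool × List Bool)} (hpad : Poly pad) (hR : UPoly R) (hZ : Poly Zs)
    (hb : Poly b) (hC : Poly C) (hE : Poly E) :
    Poly (fun a => core1 M c (pad a) (R a) (Zs a) (b a) (C a) (E a)) := by
  have h1 : Poly (fun a => (Zs a).map (fun z => (z, b a))) :=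
    NPC.Poly.map hZ (NPC.Poly.pair (NPC.Poly.snd NPC.Poly.id) (hb.comp (NPC.Poly.fst NPC.Poly.id)))
  have h2 : Poly (fun a => prof ((Zs a).map (fun z => (z, b a))) (M.qsP c (pad a))
      (orc M.V (E a)) (R a)) :=
    poly_profP hQ c hpad h1 (o := fun a => orc M.V (E a))
      (poly_orc hV (hE.comp (NPC.Poly.fst NPC.Poly.id)) (NPC.Poly.snd NPC.Poly.id)) hR
  unfold core1
  exact NPC.Poly.dec_eq h2 hC

theorem poly_num (hQ : Poly M.Q) (hD : Poly M.D) (hV : Poly M.V) (c : ℕ) {pad : α → List Unit}
    {R : α → ℕ} {Zs : α → List (List Bool)} {b : α → List Bool}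
    {E : α → List (List Bool × List Bool)} (hpad : Poly pad) (hR : UPoly R) (hZ : Poly Zs)
    (hb : Poly b) (hE : Poly E) :
    Poly (fun a => num M c (pad a) (R a) (Zs a) (b a) (E a)) := by
  unfold num
  refine NPC.Poly.valBits (NPC.Poly.map hZ ?_)
  exact poly_finP hQ hD hV c (pad := fun p : α × List Bool => pad p.1)
    (z := fun p => (p.2, b p.1)) (E := fun p => E p.1) (R := fun p => R p.1)
    (hpad.comp (NPC.Poly.fst NPC.Poly.id))
    (NPC.Poly.pair (NPC.Poly.snd NPC.Poly.id) (hb.comp (NPC.Poly.fst NPC.Poly.id)))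
    (hE.comp (NPC.Poly.fst NPC.Poly.id)) (hR.comp (NPC.Poly.fst NPC.Poly.id))

theorem poly_core2 (hQ : Poly M.Q) (hD : Poly M.D) (hV : Poly M.V) (c : ℕ) {pad : α → List Unit}
    {R : α → ℕ} {Xs Vs : α → List (List Bool)} {UBl : α → List (List Bool × List Bool)}
    {C : α → List ℕ} {x : α → List Bool} {E : α → List (List Bool × List Bool)}
    (hpad : Poly pad) (hR : UPoly R) (hX : Poly Xs) (hVs : Poly Vs) (hU : Poly UBl)
    (hC : Poly C) (hx : Poly x) (hE : Poly E) :
    Poly (fun a => core2 M c (pad a) (R a) (Xs a) (Vs a) (UBl a) (C a) (x a) (E a)) := by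
  have h1 : Poly (fun a => prof (ZZ (UBl a) (Xs a)) (M.qsP c (pad a)) (orc M.V (E a)) (R a)) :=
    poly_profP hQ c hpad (poly_ZZ hU hX) (o := fun a => orc M.V (E a))
      (poly_orc hV (hE.comp (NPC.Poly.fst NPC.Poly.id)) (NPC.Poly.snd NPC.Poly.id)) hR
  have h2 : Poly (fun p : (α × (List Bool × List Bool)) × List Bool =>
      fin (M.dcP c (pad p.1.1)) (M.qsP c (pad p.1.1)) (orc M.V (E p.1.1)) (R p.1.1)
        (pairBits p.1.2.1 p.2, p.1.2.2)) :=
    poly_finP hQ hD hV c (pad := fun p : (α × (List Bool × List Bool)) × List Bool => pad p.1.1)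
      (z := fun p => (pairBits p.1.2.1 p.2, p.1.2.2)) (E := fun p => E p.1.1)
      (R := fun p => R p.1.1) (hpad.comp (by fun_prop))
      (NPC.Poly.pair (poly_pairBits (by fun_prop) (by fun_prop)) (by fun_prop))
      (hE.comp (by fun_prop)) (hR.comp (f := fun p : (α × (List Bool × List Bool)) × List Bool =>
        p.1.1) (by fun_prop))
  have h3 : Poly (fun p : α × (List Bool × List Bool) =>
      pat (M.dcP c (pad p.1)) (M.qsP c (pad p.1)) (orc M.V (E p.1)) (R p.1) (Xs p.1) p.2) := by
    unfold pat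
    exact NPC.Poly.map (hX.comp (NPC.Poly.fst NPC.Poly.id)) h2
  have h4 : Poly (fun a => (UBl a).map (pat (M.dcP c (pad a)) (M.qsP c (pad a))
      (orc M.V (E a)) (R a) (Xs a))) := NPC.Poly.map hU h3
  have h5 := poly_dg hVs h4
  unfold core2
  refine NPC.Poly.and (NPC.Poly.dec_eq h1 hC) ?_
  exact NPC.Poly.dec_mem (NPC.Poly.pair hx (NPC.Poly.const true)) (NPC.Poly.zip hX h5)

theorem poly_ver (hQ : Poly M.Q) (hD : Poly M.D) (hV : Poly M.V) (hQ1 : Poly M1.Q)
    (hD1 : Poly M1.D) (hV1 : Poly M1.V) (c : ℕ) {el : α → List Unit} {a : α → List Bool}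
    {C : α → List ℕ} {x : α → List Bool} {E1 E2 : α → List (List Bool × List Bool)}
    {pad : α → List Unit} (hel : Poly el) (ha : Poly a) (hC : Poly C) (hx : Poly x)
    (hE1 : Poly E1) (hE2 : Poly E2) (hpad : Poly pad) :
    Poly (fun b => ver M M1 c (el b) (a b) (C b) (x b) (E1 b) (E2 b) (pad b)) := by
  have hl : UPoly (fun b => (el b).length) := UPoly.length hel
  have h1 : Poly (fun b => 2 ^ (RRP M M1 c).eval (el b).length) := poly_pow2 (UPoly.eval hl _)
  have h2 : UPoly (fun b => (el b).length ^ c + c) :=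
    upoly_of_eval (f := fun n => n ^ c + c) hl (Polynomial.X ^ c + Polynomial.C c)
      (fun n => by simp)
  have h3 : UPoly (fun b => KK c (el b).length) := upoly_KK hl c
  have h4 : Poly (fun b => strsB (el b).length (pad b)) := poly_strsB hl hpad
  have h5 : Poly (fun b => strsB (ss c (el b).length) (pad b)) := poly_strsB (upoly_ss hl c) hpad
  have h6 := poly_XP hl hpad c
  have h7 := poly_UP hl hpad c
  have h8 := poly_dn.comp (poly_num hQ1 hD1 hV1 c hpad h2 h4 ha hE1)
  unfold ver
  refine NPC.Poly.and (NPC.Poly.decide_le h1 (NPC.Poly.length hpad)) (NPC.Poly.and ?_ ?_)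
  · exact poly_core1 hQ1 hV1 c hpad h2 h4 ha hC hE1
  · exact poly_core2 hQ hD hV c hpad h3 h6 h5 h7 h8 hx hE2

end PT

theorem ver_sound (hM : M.Ok c L a) (hM1 : M1.Ok c (Bset M c) a1)
    (hT : tn (cs M c l) < 2 ^ (2 ^ l)) {x : List Bool} {E1 E2 : List (List Bool × List Bool)}
    {pad : List Unit}
    (h : ver M M1 c (List.replicate l ()) (a1 l) (tau M1 c a1 l) x E1 E2 pad = true) :
    (x, true) ∈ (XL c l).zip (dgT M c l) := by
  have hp : 2 ^ (RRP M M1 c).eval (List.replicate l ()).length ≤ pad.length := by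
    unfold ver at h
    rw [Bool.and_eq_true, decide_eq_true_eq] at h
    exact h.1
  rw [ver_eq hp, List.length_replicate, Bool.and_eq_true] at h
  rw [List.length_replicate, RRP_eval] at hp
  have h1 := core1_sound hM1 ((Nat.pow_le_pow_right (by norm_num) (by omega)).trans hp) hT h.1
  rw [h1, dn_tn] at h
  exact core2_sound hM ((Nat.pow_le_pow_right (by norm_num) (by omega)).trans hp) h.2

theorem ver_complete (hM : M.Ok c L a) (hM1 : M1.Ok c (Bset M c) a1)
    (hT : tn (cs M c l) < 2 ^ (2 ^ l)) {x : List Bool}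
    (hx : (x, true) ∈ (XL c l).zip (dgT M c l)) :
    ∃ E1 E2 : List (List Bool × List Bool),
      ver M M1 c (List.replicate l ()) (a1 l) (tau M1 c a1 l) x E1 E2
        (List.replicate (2 ^ (RRP M M1 c).eval l) ()) = true ∧
      (∀ e ∈ E1, e.1.length ≤ M1.p.eval l ∧ e.2.length ≤ M1.P.eval (M1.p.eval l)) ∧
      E1.length ≤ (l ^ c + c) * (2 ^ l * 2 ^ M1.ww c l) ∧
      (∀ e ∈ E2, e.1.length ≤ M.p.eval (NN c l) ∧ e.2.length ≤ M.P.eval (M.p.eval (NN c l))) ∧
      E2.length ≤ KK c l * ((ZL c l).length * 2 ^ M.ww c (NN c l)) := by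
  have hp : 2 ^ (RRP M M1 c).eval l ≤ (List.replicate (2 ^ (RRP M M1 c).eval l) ()).length := by
    simp
  have hp1 : 2 ^ M1.ww c l ≤ (List.replicate (2 ^ (RRP M M1 c).eval l) ()).length := by
    rw [List.length_replicate, RRP_eval]
    exact Nat.pow_le_pow_right (by norm_num) (by omega)
  have hp2 : 2 ^ M.ww c (NN c l) ≤ (List.replicate (2 ^ (RRP M M1 c).eval l) ()).length := by
    rw [List.length_replicate, RRP_eval]
    exact Nat.pow_le_pow_right (by norm_num) (by omega)
  obtain ⟨E1, h1, h2, h3⟩ := core1_complete hM1 hp1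
  obtain ⟨E2, h4, h5, h6⟩ := core2_complete hM hp2 hx
  refine ⟨E1, E2, ?_, h2, h3, h5, h6⟩
  rw [ver_eq (by rw [List.length_replicate (n := l)]; exact hp), List.length_replicate (n := l),
    Bool.and_eq_true]
  refine ⟨h1, ?_⟩
  rw [core1_sound hM1 hp1 hT h1, dn_tn]
  exact h4

end Pool.Agent.H75C.RD
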